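import Mathlib.Analysis.Complex.CauchyIntegral
import Mathlib.Analysis.SpecialFunctions.Trigonometric.Basic

/-! Invariant circles with two reflections: the interface. -/

set_option autoImplicit false

open Set

namespace Pool.Agent.MP_1ba41f_an.S2

noncomputable section

abbrev Hh (N : ℕ) : Type := Fin N → ℂ

/-- angle, action and three slave vectors -/
abbrev Zs (N : ℕ) : Type := ℂ × ℂ × Hh N × Hh N × Hh N

/-- the complex domain -/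
def Dom (N : ℕ) (s0 : ℝ) : Set (Zs N) :=
  {z | |z.1.im| < s0 ∧ ‖z.2.1‖ < 1 ∧ ‖z.2.2.1‖ < 1 ∧ ‖z.2.2.2.1‖ < 1 ∧ ‖z.2.2.2.2‖ < 1}

/-- real points -/
def rp {N : ℕ} (θ y : ℝ) (h0 h1 h2 : Fin N → ℝ) : Zs N :=
  (θ, y, fun j => h0 j, fun j => h1 j, fun j => h2 j)

/-- small holomorphic functions with a parameter, periodic in the angle, real on real points -/
structure Hol {P : Type} [TopologicalSpace P] {N : ℕ} (s0 η : ℝ) (F : P → Zs N → ℂ) : Prop where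
  cont : ContinuousOn (fun q : P × Zs N => F q.1 q.2) (univ ×ˢ Dom N s0)
  diff : ∀ p, DifferentiableOn ℂ (F p) (Dom N s0)
  bd : ∀ p, ∀ z ∈ Dom N s0, ‖F p z‖ ≤ η
  per : ∀ p, ∀ z ∈ Dom N s0, F p (z.1 + 2 * Real.pi, z.2) = F p z
  real : ∀ p θ y h0 h1 h2, rp θ y h0 h1 h2 ∈ Dom N s0 → (F p (rp θ y h0 h1 h2)).im = 0

/-- small periodic functions of a real angle with a parameter -/
structure Sm {P : Type} [TopologicalSpace P] (η : ℝ) (u : P → ℝ → ℝ) : Prop where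
  cont : Continuous fun q : P × ℝ => u q.1 q.2
  per : ∀ p θ, u p (θ + 2 * Real.pi) = u p θ
  bd : ∀ p θ, |u p θ| ≤ η
  lip : ∀ p a b, |u p a - u p b| ≤ η * |a - b|
  ana : ∀ p, AnalyticOnNhd ℝ (u p) univ

/-- Diophantine angles -/
def DioW (w g : ℝ) : Prop :=
  0 < g ∧ ∀ k : ℤ, k ≠ 0 → g / (k : ℝ) ^ 2 ≤ ‖Complex.exp (k * w * Complex.I) - 1‖

/-- the point of the domain seen from the angle `θ` -/
def pt {N : ℕ} (w : ℝ) (u y : ℝ → ℝ) (h : ℝ → Fin N → ℝ) (θ : ℝ) : Zs N :=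
  rp (θ + u θ) (y θ) (h θ) (h (-θ)) (h (-θ - w))

/-- RK: invariant circles with a counterterm -/
def RKStmt : Prop :=
  ∀ (N : ℕ) (s0 g w η' : ℝ), 0 < s0 → DioW w g → 0 < η' → ∃ η : ℝ, 0 < η ∧
    ∀ (P : Type) [MetricSpace P] (F1 F2 : P → Zs N → ℂ) (Xi : P → Zs N → Hh N),
      Hol s0 η F1 → Hol s0 η F2 → (∀ j, Hol s0 η fun p z => Xi p z j) →
      ∃ (u y xu xy : P → ℝ → ℝ) (h : P → ℝ → Fin N → ℝ) (sig : P → ℝ),
        Sm η' u ∧ Sm η' y ∧ Sm η' xu ∧ Sm η' xy ∧ (∀ j, Sm η' fun p θ => h p θ j) ∧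
        Continuous sig ∧ (∀ p, |sig p| ≤ η') ∧
        (∀ p θ, u p (-θ) = -u p θ) ∧ (∀ p θ, xu p (-θ) = -xu p θ) ∧
        (∀ p θ, y p (-θ) = y p θ) ∧ (∀ p θ, xy p (-θ) = xy p θ) ∧
        ∀ p θ, pt w (u p) (y p) (h p) θ ∈ Dom N s0 ∧
          (xu p (θ + w / 2) : ℂ) = u p θ + F1 p (pt w (u p) (y p) (h p) θ) + sig p ∧
          (xy p (θ + w / 2) : ℂ) = y p θ + F2 p (pt w (u p) (y p) (h p) θ) ∧
          ∀ j, (h p θ j : ℂ) = Xi p (pt w (u p) (y p) (h p) θ) j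

/-- DIO: Diophantine angles are dense and have dense orbits -/
def DioStmt : Prop :=
  (∀ a b : ℝ, a < b → ∃ w g, a < w ∧ w < b ∧ DioW w g) ∧
    ∀ w g, DioW w g → ∀ θ0 θ ε : ℝ, 0 < ε →
      ∃ (k : ℕ) (m : ℤ), |θ0 + k * w - θ - m * (2 * Real.pi)| < ε

end

end Pool.Agent.MP_1ba41f_an.S2
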