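import Pool.Agent.MP_1ba41f_an.S2.RK.Bas
import Mathlib.Topology.Instances.AddCircle.DenseSubgroup
import Mathlib.Topology.Algebra.Group.SubmonoidClosure
import Mathlib.Analysis.Normed.Group.AddCircle
import Mathlib.Analysis.SpecialFunctions.Trigonometric.Bounds
import Mathlib.NumberTheory.Real.Irrational

/-! Diophantine rotation numbers are dense, and their orbits are dense. -/

set_option autoImplicit false

namespace Pool.Agent.MP_1ba41f_an.S2.RK

open Real

namespace Dio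

theorem nrm (x : ℝ) : 4 * |x - round x| ≤ ‖Complex.exp (((2 * π * x : ℝ) : ℂ) * Complex.I) - 1‖ := by
  rw [mul_comm _ Complex.I, Complex.norm_exp_I_mul_ofReal_sub_one, Real.norm_eq_abs, abs_mul,
    abs_two, show 2 * π * x / 2 = π * (x - round x) + (round x : ℤ) * π by ring,
    Real.sin_add_int_mul_pi, abs_mul, abs_zpow, abs_neg, abs_one, one_zpow, one_mul]
  have h := abs_sub_round x
  have k := Real.mul_abs_le_abs_sin (x := π * (x - round x)) (by
    rw [abs_mul, abs_of_pos pi_pos]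
    nlinarith [pi_pos])
  rw [abs_mul, abs_of_pos pi_pos, ← mul_assoc, div_mul_cancel₀ _ pi_pos.ne'] at k
  linarith

theorem rt (k j : ℤ) (hk : k ≠ 0) : 1 ≤ |k * √2 - j| * |k * √2 + j| := by
  have s : √2 ^ 2 = 2 := Real.sq_sqrt zero_le_two
  rw [← abs_mul, show ((k : ℝ) * √2 - j) * (k * √2 + j) = ((2 * k ^ 2 - j ^ 2 : ℤ) : ℝ) by
    push_cast
    linear_combination (k : ℝ) ^ 2 * s, ← Int.cast_abs]
  refine Int.cast_one_le_of_pos (abs_pos.2 fun h => ?_)
  have e : ((k : ℝ) * √2 - j) * (k * √2 + j) = 0 := by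
    have : ((2 * k ^ 2 - j ^ 2 : ℤ) : ℝ) = 0 := by rw [h, Int.cast_zero]
    push_cast at this
    linear_combination (k : ℝ) ^ 2 * s + this
  have i := irrational_sqrt_two.intCast_mul hk
  rcases mul_eq_zero.1 e with e | e
  · exact (i.sub_intCast j).ne_zero e
  · exact (i.add_intCast j).ne_zero e

theorem one (n : ℕ) (hn : 0 < n) (p : ℤ) : DioW (2 * π * ((p + √2) / n)) (1 / (n * (n + 3))) := by
  have n1 : (1 : ℝ) ≤ n := by exact_mod_cast hn
  refine ⟨by positivity, fun k hk => ?_⟩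
  have h := nrm (k * ((p + √2) / n))
  rw [show ((2 * π * (k * ((p + √2) / n)) : ℝ) : ℂ) = k * ((2 * π * ((p + √2) / n) : ℝ) : ℂ) by
    push_cast
    ring] at h
  refine le_trans ?_ h
  obtain ⟨m, hm⟩ : ∃ m, m = round (k * ((p + √2) / n) : ℝ) := ⟨_, rfl⟩
  have r := abs_sub_round (k * ((p + √2) / n) : ℝ)
  rw [← hm] at r ⊢
  obtain ⟨t, ht⟩ : ∃ t, t = |(k * ((p + √2) / n) : ℝ) - m| := ⟨_, rfl⟩
  rw [← ht] at r ⊢
  have t0 : 0 ≤ t := ht ▸ abs_nonneg _
  have q := rt k (m * n - k * p) hk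
  have e : |k * √2 - ((m * n - k * p : ℤ) : ℝ)| = n * t := by
    rw [ht, ← abs_of_pos (zero_lt_one.trans_le n1), ← abs_mul, abs_of_pos (zero_lt_one.trans_le n1)]
    congr 1
    push_cast
    field_simp
    ring
  have k1 : (1 : ℝ) ≤ |(k : ℝ)| := by exact_mod_cast Int.one_le_abs hk
  have s : √2 ≤ 3 / 2 := Real.sqrt_le_iff.2 ⟨by norm_num, by norm_num⟩
  have f : |k * √2 + ((m * n - k * p : ℤ) : ℝ)| ≤ (n + 3) * (k : ℝ) ^ 2 := by
    have a := abs_sub (2 * (k * √2)) (k * √2 - ((m * n - k * p : ℤ) : ℝ))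
    rw [e, show 2 * (k * √2) - (k * √2 - ((m * n - k * p : ℤ) : ℝ)) =
      k * √2 + ((m * n - k * p : ℤ) : ℝ) by ring, abs_mul, abs_mul, abs_two,
      abs_of_nonneg (Real.sqrt_nonneg 2)] at a
    rw [← sq_abs]
    have b : |(k : ℝ)| ≤ |(k : ℝ)| ^ 2 := by nlinarith
    nlinarith
  rw [e] at q
  have g := q.trans (mul_le_mul_of_nonneg_left f (by positivity))
  rw [div_div, div_le_iff₀ (by positivity)]
  nlinarith

end Dio

theorem dio : DioStmt := by
  have p2 : 0 < 2 * π := by positivity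
  refine ⟨fun a b h => ?_, fun w g h θ0 θ ε e0 => ?_⟩
  · obtain ⟨n, hn⟩ := exists_nat_gt (2 * π / (b - a))
    have n0 : (0 : ℝ) < n := (div_pos p2 (sub_pos.2 h)).trans hn
    rw [div_lt_iff₀ (sub_pos.2 h)] at hn
    refine ⟨_, _, ?_, ?_, Dio.one n (Nat.cast_pos.1 n0) (⌊n * a / (2 * π) - √2⌋ + 1)⟩
    · have := Int.lt_floor_add_one (n * a / (2 * π) - √2)
      rw [← mul_div_assoc, lt_div_iff₀ n0]
      rw [sub_lt_iff_lt_add, div_lt_iff₀ p2] at this
      push_cast
      linarith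
    · have := Int.floor_le (n * a / (2 * π) - √2)
      rw [← mul_div_assoc, div_lt_iff₀ n0]
      rw [le_sub_iff_add_le, le_div_iff₀ p2] at this
      push_cast
      linarith
  · have i : Irrational (w / (2 * π)) := by
      rintro ⟨q, hq⟩
      have d0 : ((q.den : ℤ) : ℝ) ≠ 0 := by simp
      have k := h.2 q.den (by simp)
      have e : ((q.den : ℤ) : ℂ) * w * Complex.I = q.num * (2 * π * Complex.I) := by
        have : ((q.den : ℤ) : ℝ) * w = q.num * (2 * π) := by
          rw [Rat.cast_def, div_eq_div_iff (by simp) p2.ne'] at hq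
          push_cast
          linarith
        rw [← mul_assoc]
        exact congrArg (· * Complex.I) (by exact_mod_cast this)
      rw [e, Complex.exp_int_mul_two_pi_mul_I, sub_self, norm_zero] at k
      exact (div_pos h.1 (by positivity)).not_ge k
    have : Fact (0 < 2 * π) := ⟨p2⟩
    have d := denseRange_zsmul_iff_nsmul.1 (AddCircle.denseRange_zsmul_coe_iff.2 i)
    obtain ⟨k, hk⟩ := d.exists_dist_lt ((θ - θ0 : ℝ) : AddCircle (2 * π)) e0
    rw [dist_comm, dist_eq_norm, ← AddCircle.coe_nsmul, ← AddCircle.coe_sub, AddCircle.norm_eq,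
      nsmul_eq_mul] at hk
    exact ⟨k, _, lt_of_eq_of_lt (congrArg _ (by ring)) hk⟩

end Pool.Agent.MP_1ba41f_an.S2.RK
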