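import Pool.Agent.MP_1ba41f_an.S2.RK.Bas
import Mathlib.Analysis.Calculus.MeanValue

/-! Invariant circles with two reflections: from the abstract theorem to the interface. -/

set_option autoImplicit false

open Set Matrix

namespace Pool.Agent.MP_1ba41f_an.S2.RK

namespace Ada

noncomputable section

abbrev II (N : ℕ) : Type := Fin 3 × Fin N

/-- coordinates -/
def em (N : ℕ) : (JJ (II N) → ℂ) →L[ℂ] Zs N :=
  (ContinuousLinearMap.proj (.inl 0)).prod ((ContinuousLinearMap.proj (.inl 1)).prod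
    ((ContinuousLinearMap.pi fun j => ContinuousLinearMap.proj (.inr (0, j))).prod
      ((ContinuousLinearMap.pi fun j => ContinuousLinearMap.proj (.inr (1, j))).prod
        (ContinuousLinearMap.pi fun j => ContinuousLinearMap.proj (.inr (2, j))))))

variable {N : ℕ} {s0 η : ℝ} {P : Type} [MetricSpace P]

theorem em_apply (z : JJ (II N) → ℂ) : em N z = (z (.inl 0), z (.inl 1), fun j => z (.inr (0, j)),
    fun j => z (.inr (1, j)), fun j => z (.inr (2, j))) := rfl

theorem em_mem {z : JJ (II N) → ℂ} (h : z ∈ DJ (.inl 0) s0) : em N z ∈ Dom N s0 :=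
  ⟨h.1, h.2 _ (by simp), (pi_norm_lt_iff zero_lt_one).2 fun _ => h.2 _ (by simp),
    (pi_norm_lt_iff zero_lt_one).2 fun _ => h.2 _ (by simp),
    (pi_norm_lt_iff zero_lt_one).2 fun _ => h.2 _ (by simp)⟩

theorem holJ {F : P → Zs N → ℂ} (h : Hol s0 η F) :
    HolJ (.inl 0) s0 η fun p z => F p (em N z) where
  cont := h.cont.comp (f := fun q : P × (JJ (II N) → ℂ) => (q.1, em N q.2)) (by fun_prop)
    fun _ hq => ⟨trivial, em_mem hq.2⟩
  diff p := (h.diff p).comp (em N).differentiable.differentiableOn fun _ hz => em_mem hz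
  bd p _ hz := h.bd p _ (em_mem hz)
  per p z hz := by
    rw [← h.per p _ (em_mem hz)]
    congr 1
    simp [em_apply]
  real p x hx := h.real p _ _ _ _ _ (em_mem hx)

theorem hol_zero (h : 0 ≤ η) : Hol s0 η fun (_ : P) (_ : Zs N) => (0 : ℂ) :=
  ⟨continuousOn_const, fun _ => differentiableOn_const _, fun _ _ _ => by simpa using h,
    fun _ _ _ => rfl, fun _ _ _ _ _ _ _ => rfl⟩

theorem hol_neg {F : P → Zs N → ℂ} (h : Hol s0 η F) : Hol s0 η fun p z => -F p z :=
  ⟨h.cont.neg, fun p => (h.diff p).neg, fun p z hz => by simpa using h.bd p z hz,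
    fun p z hz => by rw [h.per p z hz], fun p a b c d e hz => by
      rw [Complex.neg_im, h.real p a b c d e hz, neg_zero]⟩

/-- the perturbation terms -/
def gg (F1 F2 : P → Zs N → ℂ) (Xi : P → Zs N → Hh N) : OO (II N) → P → Zs N → ℂ
  | .inl a => if a.1 = 0 then fun _ _ => 0 else if a.2 = 0 then F1 else F2
  | .inr b => if (b.1 = false ↔ b.2.1 = 0) then fun p z => -Xi p z b.2.2 else fun _ _ => 0

theorem hol_gg {F1 F2 : P → Zs N → ℂ} {Xi : P → Zs N → Hh N} (h : 0 ≤ η) (h1 : Hol s0 η F1)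
    (h2 : Hol s0 η F2) (h3 : ∀ j, Hol s0 η fun p z => Xi p z j) (o : OO (II N)) :
    Hol s0 η (gg F1 F2 Xi o) := by
  rcases o with a | b <;> simp only [gg] <;> split_ifs
  exacts [hol_zero h, h1, h2, hol_neg (h3 _), hol_zero h]

end

end Ada

open Ada in
theorem rk (mAlg : MAlgStmt) (modS : ModStmt) (kam : KamStmt) (comp : CompStmt) (smS : SmStmt) :
    RKStmt := by
  intro N s0 g w η' hs0 hw hη'
  obtain ⟨Γ, hΓ⟩ := modS w g hw
  obtain ⟨r0, C0, hr0, -, hC0, hc⟩ := comp (JJ (II N)) (.inl 0) s0 hs0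
  set S0 := min (s0 / 2) 1 with hS0
  have S0p : 0 < S0 := lt_min (by linarith) one_pos
  have S01 : S0 ≤ 1 := min_le_right _ _
  have S0s : S0 ≤ s0 / 2 := min_le_left _ _
  set e := min r0 (η' * S0 / 12) with he
  have ep : 0 < e := lt_min hr0 (by positivity)
  have er : e ≤ r0 := min_le_left _ _
  have e1 : e ≤ η' * S0 / 12 := min_le_right _ _
  obtain ⟨ε, εp, hk⟩ := kam (II N) Γ S0 r0 C0 e S0p S01 hr0 (by linarith) ep
  have Cp : 0 < C0 := by linarith
  refine ⟨min (min 1 e) (ε / C0), lt_min (lt_min one_pos ep) (by positivity), ?_⟩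
  intro P _ F1 F2 Xi h1 h2 h3
  set η := min (min 1 e) (ε / C0) with hη
  have ηp : 0 < η := lt_min (lt_min one_pos ep) (by positivity)
  have η1 : η ≤ 1 := (min_le_left _ _).trans (min_le_left _ _)
  have ηe : η ≤ e := (min_le_left _ _).trans (min_le_right _ _)
  have ηε : C0 * η ≤ ε := by
    have : η ≤ ε / C0 := min_le_right _ _
    rwa [le_div_iff₀ Cp, mul_comm] at this
  have ηε' : η ≤ ε := by nlinarith
  have Cη : C0 * η ≤ C0 := by nlinarith
  obtain ⟨S, hB, hD, r0e, r1e⟩ := hΓ P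
  set f : OO (II N) → P → (JJ (II N) → ℂ) → ℂ := fun o p z => gg F1 F2 Xi o p (em N z) with hf
  have hc' := fun o => hc P η (f o) ηp.le (holJ (hol_gg ηp.le h1 h2 h3 o))
  have isF : IsF S S0 r0 C0 ε (fun k o => cF (.inl 0) (f o) k)
      (fun k => Matrix.of fun o j => cB (.inl 0) (f o) k j) := by
    refine ⟨fun {s k} hs hk o => S.le (c := η) ?_ ηε', fun {s k} hs hk o j => S.le (c := C0 * η) ?_ ηε,
      fun {s k ξ κ} hs hk hξ hκ o => S.le (c := C0 * η * κ ^ 2) ?_ (by gcongr),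
      fun {s k ξ κ} hs hk hξ hκ o j => S.le (c := C0 * η * κ) ?_
        (mul_le_mul_of_nonneg_right Cη (S.nonneg (hξ j))), fun {s k k'} hs hk hd o => ?_⟩
    · rw [hB] at hk ⊢
      exact (hc' o s k (hs.trans S0s) hk).2.1
    · rw [hB] at hk ⊢
      exact (hc' o s k (hs.trans S0s) hk).2.2.1 j
    · rw [hB] at hk hξ ⊢
      exact ((hc' o s k (hs.trans S0s) hk).2.2.2.1 ξ κ hξ hκ).1
    · rw [hB] at hk hξ ⊢
      exact ((hc' o s k (hs.trans S0s) hk).2.2.2.1 ξ κ hξ hκ).2 j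
    · rw [hB] at hk
      rw [hD] at hd ⊢
      exact (hc' o s k (hs.trans S0s) hk).2.2.2.2 k' hd
  obtain ⟨k, lam, bk, dl, bl, eq⟩ := hk _ S (fun b => if b.1 = 2 then 1 else 0) _ _ isF
  have s2 : S0 / 2 ≤ s0 / 2 := by linarith
  have bk' : ∀ j, BdM (S0 / 2) (k j) r0 := fun j => hB ▸ S.le (bk j) er
  have bF : ∀ o, S.Bd (S0 / 2) (cF (.inl 0) (f o) k) e := fun o =>
    S.le (c := η) (hB ▸ (hc' o _ k s2 bk').2.1) ηe
  have mem := fun p θ => em_mem ((hc' (.inl (0, 0)) _ k s2 bk').1 p θ)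
  have sm : ∀ {x : P → ℝ → ℝ} {c : ℝ}, S.Bd (S0 / 2) x c → c ≤ 3 * e → Sm η' x := fun {x c} h hc =>
    smS P (S0 / 2) (3 * e) η' x (hB ▸ S.le h hc) (by nlinarith)
      (by rw [div_le_iff₀ (by positivity)]; linarith)
  have rf : ∀ {x : P → ℝ → ℝ} {c : ℝ}, S.Bd (S0 / 2) x c → S.Bd (S0 / 2) (rfl' (w / 2) x) c :=
    fun {x c} h => by
      rw [hB] at h ⊢
      exact (mAlg P).2.2.2.2.2.1 _ h
  have lc : ∀ p θ, lam p θ = lam p 0 := fun p θ => by
    rw [hD] at dl
    exact is_const_of_deriv_eq_zero (fun x => (dl p x).differentiableAt)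
      (fun x => (dl p x).deriv) θ 0
  have bl' : BdM (S0 / 2) lam e := hB ▸ bl
  set G := k (.inl 0) + cF (.inl 0) (f (.inl (1, 0))) k + lam with hG
  set H := k (.inl 1) + cF (.inl 0) (f (.inl (1, 1))) k with hH
  have q00 : ∀ p θ, k (.inl 0) p (-θ) = -k (.inl 0) p θ := fun p θ => by
    have := congrFun (congrFun (eq (.inl (0, 0))) p) θ
    simp [Lop, r0e, rfl', cF, hf, gg, cv, sg] at this
    linarith
  have q01 : ∀ p θ, k (.inl 1) p (-θ) = k (.inl 1) p θ := fun p θ => by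
    have := congrFun (congrFun (eq (.inl (0, 1))) p) θ
    simp [Lop, r0e, rfl', cF, hf, gg, cv, sg] at this
    linarith
  have q10 : ∀ p θ, G p (-θ - w) = -G p θ := fun p θ => by
    have := congrFun (congrFun (eq (.inl (1, 0))) p) θ
    simp [Lop, r1e, rfl', cv, sg] at this
    simp only [hG, Pi.add_apply, lc p (-θ - w), lc p θ] at this ⊢
    linarith
  have q11 : ∀ p θ, H p (-θ - w) = H p θ := fun p θ => by
    have := congrFun (congrFun (eq (.inl (1, 1))) p) θ
    simp [Lop, r1e, rfl', cv, sg] at this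
    simp only [hH, Pi.add_apply]
    linarith
  have q0 : ∀ p θ j, k (.inr (0, j)) p θ = (Xi p (em N (ptJ (.inl 0) k p θ)) j).re := fun p θ j => by
    have := congrFun (congrFun (eq (.inr (0, j))) p) θ
    simp [Lop, r0e, rfl', cF, hf, gg, cv] at this
    linarith
  have q1 : ∀ p θ j, k (.inr (1, j)) p θ = k (.inr (0, j)) p (-θ) := fun p θ j => by
    have := congrFun (congrFun (eq (.inr (1, j))) p) θ
    simp [Lop, r0e, rfl', cF, hf, gg, cv] at this
    rw [q0]
    linarith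
  have q2 : ∀ p θ j, k (.inr (2, j)) p θ = k (.inr (0, j)) p (-θ - w) := fun p θ j => by
    have := congrFun (congrFun (eq (.inr (2, j))) p) θ
    simp [Lop, r1e, rfl', cF, hf, gg, cv] at this
    rw [q0]
    linarith
  have hp : ∀ p θ, pt w (k (.inl 0) p) (k (.inl 1) p) (fun θ j => k (.inr (0, j)) p θ) θ =
      em N (ptJ (.inl 0) k p θ) := fun p θ => by
    simp [pt, rp, em_apply, ptJ, q1, q2]
  have re : ∀ {F : P → Zs N → ℂ}, Hol s0 η F → ∀ p θ,
      ((F p (em N (ptJ (.inl 0) k p θ))).re : ℂ) = F p (em N (ptJ (.inl 0) k p θ)) :=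
    fun {F} h p θ => Complex.ext rfl (h.real p _ _ _ _ _ (mem p θ)).symm
  refine ⟨k (.inl 0), k (.inl 1), -rfl' (w / 2) G, rfl' (w / 2) H,
    fun p θ j => k (.inr (0, j)) p θ, fun p => lam p 0, sm (bk _) (by linarith),
    sm (bk _) (by linarith), sm (S.neg (rf (S.add (S.add (bk _) (bF _)) bl))) (by linarith),
    sm (rf (S.add (bk _) (bF _))) (by linarith), fun j => sm (bk _) (by linarith),
    bl'.2.2.1.comp (f := fun p : P => (p, (0 : ℝ))) (by fun_prop),
    fun p => (bl'.abs_le p 0).trans (by nlinarith), q00, fun p θ => ?_, q01, fun p θ => ?_,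
    fun p θ => ?_⟩
  · show -G p (- -θ - w / 2) = - -G p (-θ - w / 2)
    rw [← q10 p (-θ - w / 2), show -(-θ - w / 2) - w = - -θ - w / 2 by ring]
  · show H p (- -θ - w / 2) = H p (-θ - w / 2)
    rw [← q11 p (-θ - w / 2), show -(-θ - w / 2) - w = - -θ - w / 2 by ring]
  · rw [hp]
    refine ⟨mem p θ, ?_, ?_, fun j => ?_⟩
    · show ((-G p (-(θ + w / 2) - w / 2) : ℝ) : ℂ) = _
      rw [show -(θ + w / 2) - w / 2 = -θ - w by ring, q10, neg_neg, ← re h1]
      simp [hG, cF, hf, gg, lc p θ]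
    · show ((H p (-(θ + w / 2) - w / 2) : ℝ) : ℂ) = _
      rw [show -(θ + w / 2) - w / 2 = -θ - w by ring, q11, ← re h2]
      simp [hH, cF, hf, gg]
    · exact (congrArg _ (q0 p θ j)).trans (re (h3 j) p θ)

end Pool.Agent.MP_1ba41f_an.S2.RK
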