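import Pool.Agent.MP_1ba41f_an.S2.RK.Bas
import Pool.Agent.MP_1ba41f_an.S2.OD.Cau
import Pool.Agent.MP_1ba41f_an.S2.OD.HolB

/-! Cauchy estimates and coordinate derivatives. -/

set_option autoImplicit false

open Set Metric Filter Topology

namespace Pool.Agent.MP_1ba41f_an.S2.RK

theorem cau : CauStmt := fun Z _ _ f z r η hr hd hM => by
  obtain ⟨h1, -, h3, -⟩ := cauS Z ℂ f z r η hr hd hM
  have η0 : 0 ≤ η := (norm_nonneg _).trans (hM z (mem_ball_self hr))
  refine ⟨fun v => ((fderiv ℂ f z).le_opNorm v).trans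
    (mul_le_mul_of_nonneg_right h1 (norm_nonneg _)), fun ξ hξ => ?_⟩
  have h := h3 (z + ξ) (by rw [mem_ball_iff_norm, add_sub_cancel_left]; linarith)
  rw [add_sub_cancel_left] at h
  refine h.trans ?_
  gcongr
  norm_num

namespace Cau

variable {J : Type} [Fintype J] {j0 : J} {s0 r : ℝ}

lemma open_DJ : IsOpen (DJ j0 s0) := by
  have e : DJ j0 s0 = {z : J → ℂ | |(z j0).im| < s0} ∩ ⋂ j ∈ {j | j ≠ j0}, {z | ‖z j‖ < 1} := by
    ext z
    simp [DJ]
  rw [e]
  exact (isOpen_lt (by fun_prop) continuous_const).inter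
    ((toFinite _).isOpen_biInter fun j _ => isOpen_lt (by fun_prop) continuous_const)

lemma sub {z : J → ℂ} (hz : |(z j0).im| < s0 - r ∧ ∀ i, i ≠ j0 → ‖z i‖ < 1 - r) :
    ball z r ⊆ DJ j0 s0 := fun w hw => by
  rw [mem_ball_iff_norm] at hw
  have h : ∀ i, ‖w i - z i‖ < r := fun i => (norm_le_pi_norm (w - z) i).trans_lt hw
  refine ⟨?_, fun i hi => ?_⟩
  · have h1 := Complex.abs_im_le_norm (w j0 - z j0)
    have h2 := abs_add_le (w j0 - z j0).im (z j0).im
    rw [Complex.sub_im, sub_add_cancel, ← Complex.sub_im] at h2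
    linarith [h j0, hz.1]
  · have h2 := norm_add_le (w i - z i) (z i)
    rw [sub_add_cancel] at h2
    linarith [h i, hz.2 i hi]

end Cau

theorem par (cau : CauStmt) : ParStmt := by
  intro P J _ _ _ j0 j s0 η r f hr H V g
  have sub : ∀ z ∈ V, ball z r ⊆ DJ j0 s0 := fun z hz => Cau.sub hz
  have VD : V ⊆ DJ j0 s0 := fun z hz => sub z hz (mem_ball_self hr)
  have C := fun p z (hz : z ∈ V) => cau (J → ℂ) (f p) z r η hr ((H.diff p).mono (sub z hz))
    fun x hx => H.bd p x (sub z hz hx)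
  obtain ⟨t, -, ht, t0⟩ := exists_seq_strictAnti_tendsto' (half_pos hr)
  have tn : ∀ n, (t n : ℂ) ≠ 0 := fun n => Complex.ofReal_ne_zero.2 (ht n).1.ne'
  have nt : ∀ n, ‖(Pi.single j (t n : ℂ) : J → ℂ)‖ = t n := fun n => by
    rw [Pi.norm_single, Complex.norm_real, Real.norm_of_nonneg (ht n).1.le]
  have m : ∀ n, ∀ z ∈ V, z + Pi.single j (t n : ℂ) ∈ DJ j0 s0 := fun n z hz => sub z hz (by
    rw [mem_ball_iff_norm, add_sub_cancel_left, nt]
    linarith [(ht n).2])
  have T := t0.const_mul (8 * η / r ^ 2)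
  rw [mul_zero] at T
  have est : ∀ n p, ∀ z ∈ V, ‖g p z - (t n : ℂ)⁻¹ * (f p (z + Pi.single j (t n : ℂ)) - f p z)‖ ≤
      8 * η / r ^ 2 * t n := fun n p z hz => by
    have h := (C p z hz).2 _ ((nt n).trans_le (ht n).2.le)
    have e1 : (Pi.single j (t n : ℂ) : J → ℂ) = (t n : ℂ) • (Pi.single j 1 : J → ℂ) := by
      rw [← Pi.single_smul, smul_eq_mul, mul_one]
    have e : g p z - (t n : ℂ)⁻¹ * (f p (z + Pi.single j (t n : ℂ)) - f p z) = -((t n : ℂ)⁻¹ *
        (f p (z + Pi.single j (t n : ℂ)) - f p z - fderiv ℂ (f p) z (Pi.single j (t n : ℂ)))) := by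
      have e2 : fderiv ℂ (f p) z (Pi.single j (t n : ℂ)) = t n * g p z := by
        rw [e1, map_smul, smul_eq_mul]
      rw [e2]
      field_simp [tn n]
      ring
    rw [nt] at h
    rw [e, norm_neg, norm_mul, norm_inv, Complex.norm_real, Real.norm_of_nonneg (ht n).1.le,
      inv_mul_le_iff₀ (ht n).1]
    exact h.trans (le_of_eq (by ring))
  refine ⟨?_, fun p => ((holB cauS _ ℂ _ Cau.open_DJ).2 _ (H.diff p)).2 _ |>.mono VD,
    fun p z hz => ?_, fun p z hz => ?_, fun p x hx => ?_⟩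
  · refine TendstoUniformlyOn.continuousOn (p := atTop) (F := fun n (q : P × (J → ℂ)) =>
      (t n : ℂ)⁻¹ * (f q.1 (q.2 + Pi.single j (t n : ℂ)) - f q.1 q.2)) ?_
      (Frequently.of_forall fun n => continuousOn_const.mul (ContinuousOn.sub ?_ ?_))
    · rw [Metric.tendstoUniformlyOn_iff]
      intro ε hε
      filter_upwards [T.eventually (gt_mem_nhds hε)] with n hn q hq
      rw [dist_eq_norm]
      exact (est n q.1 q.2 hq.2).trans_lt hn
    · exact H.cont.comp (s := univ ×ˢ V)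
        (f := fun q : P × (J → ℂ) => (q.1, q.2 + Pi.single j (t n : ℂ)))
        (Continuous.continuousOn (by fun_prop)) fun q hq => ⟨trivial, m n _ hq.2⟩
    · exact H.cont.mono (prod_mono le_rfl VD)
  · simpa [Pi.norm_single] using (C p z hz).1 (Pi.single j 1)
  · have e : (fun w => f p (w + Pi.single j0 (2 * Real.pi : ℂ))) =ᶠ[𝓝 z] f p :=
      eventually_of_mem (Cau.open_DJ.mem_nhds (VD hz)) fun w hw => H.per p w hw
    simp only [g]
    rw [← e.fderiv_eq, fderiv_comp_add_right]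
  · have b : ∀ n, |(g p fun i => (x i : ℂ)).im| ≤ 8 * η / r ^ 2 * t n := fun n => by
      have e : ((fun i => (x i : ℂ)) + Pi.single j (t n : ℂ) : J → ℂ) =
          fun i => ((x i + (Pi.single j (t n) : J → ℝ) i : ℝ) : ℂ) := by
        ext i
        by_cases hi : i = j
        · subst hi
          simp
        · simp [hi]
      have h1 := H.real p x (VD hx)
      have h2 := H.real p (fun i => x i + (Pi.single j (t n) : J → ℝ) i) (e ▸ m n _ hx)
      refine le_trans (le_of_eq ?_) ((Complex.abs_im_le_norm _).trans (est n p _ hx))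
      rw [e, ← Complex.ofReal_inv, Complex.sub_im, Complex.im_ofReal_mul, Complex.sub_im, h1, h2]
      simp
    exact abs_nonpos_iff.1 (ge_of_tendsto' T b)

end Pool.Agent.MP_1ba41f_an.S2.RK
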