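import Pool.Agent.MP_1ba41f_an.S2.RK.Bas
import Mathlib.Analysis.Complex.LocallyUniformLimit
import Mathlib.Analysis.Calculus.Deriv.Star
import Mathlib.Analysis.PSeries
import Mathlib.Analysis.Normed.Group.FunctionSeries
import Mathlib.MeasureTheory.Integral.DominatedConvergence

/-! Invariant circles with two reflections: the cohomological equation. -/

set_option autoImplicit false

open Set Complex

namespace Pool.Agent.MP_1ba41f_an.S2.RK

namespace Coh

theorem term {w g s c d : ℝ} (hw : DioW w g) (hd : 0 < d) (hc : 0 ≤ c) {b : ℂ} {n : ℤ}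
    (hb : ‖b‖ ≤ c * Real.exp (-(|(n : ℝ)| * s))) {z : ℂ} (hz : z ∈ strip (s - d)) :
    ‖b / (exp (n * w * I) - 1) * exp (n * z * I)‖ ≤ 24 / g * c / d ^ 4 * (1 / (n : ℝ) ^ 2) := by
  have hg := hw.1
  rcases eq_or_ne n 0 with rfl | hn
  · simp
  have hn' : (n : ℝ) ≠ 0 := Int.cast_ne_zero.2 hn
  have ha : 0 < |(n : ℝ)| := abs_pos.2 hn'
  have h1 := hw.2 n hn
  have h2 : ‖exp (n * z * I)‖ ≤ Real.exp (|(n : ℝ)| * (s - d)) := by
    rw [norm_exp]
    refine Real.exp_le_exp.2 ?_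
    have : (n * z * I : ℂ).re = -((n : ℝ) * z.im) := by simp
    rw [this]
    refine (neg_le_abs _).trans ?_
    rw [abs_mul]
    exact mul_le_mul_of_nonneg_left (le_of_lt hz) ha.le
  have h3 : (|(n : ℝ)| * d) ^ 4 / 24 ≤ Real.exp (|(n : ℝ)| * d) := by
    simpa [Nat.factorial] using Real.pow_div_factorial_le_exp _ (mul_pos ha hd).le 4
  have h4 : |(n : ℝ)| ^ 4 = (n : ℝ) ^ 4 := Even.pow_abs (by decide) _
  rw [mul_pow, h4] at h3
  rw [norm_mul, norm_div]
  calc _ ≤ c * Real.exp (-(|(n : ℝ)| * s)) / (g / (n : ℝ) ^ 2) *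
        Real.exp (|(n : ℝ)| * (s - d)) := by gcongr
    _ = c * (n : ℝ) ^ 2 / g / Real.exp (|(n : ℝ)| * d) := by
      rw [mul_sub, Real.exp_sub, Real.exp_neg]
      field_simp
    _ ≤ c * (n : ℝ) ^ 2 / g / ((n : ℝ) ^ 4 * d ^ 4 / 24) := by gcongr
    _ = _ := by field_simp

theorem sm (A : ℝ) : Summable fun n : ℤ => A * (1 / (n : ℝ) ^ 2) :=
  (Real.summable_one_div_int_pow.2 one_lt_two).mul_left A

/-- a series of exponentials on a strip -/
theorem ext {s A : ℝ} {a : ℤ → ℂ}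
    (h : ∀ n : ℤ, ∀ z ∈ strip s, ‖a n * exp (n * z * I)‖ ≤ A * (1 / (n : ℝ) ^ 2)) :
    Ext s (fun z => ∑' n : ℤ, a n * exp (n * z * I)) (A * ∑' n : ℤ, 1 / (n : ℝ) ^ 2) := by
  refine ⟨differentiableOn_tsum_of_summable_norm (sm A) (fun n => by fun_prop) (isOpen_strip s) h,
    fun z _ => tsum_congr fun n => ?_, fun z hz => ?_⟩
  · rw [show (n * (z + 2 * Real.pi) * I : ℂ) = n * z * I + n * (2 * Real.pi * I) by ring, exp_add,
      exp_int_mul_two_pi_mul_I, mul_one]
  · exact tsum_of_norm_bounded ((Real.summable_one_div_int_pow.2 one_lt_two).hasSum.mul_left A)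
      fun n => h n z hz

/-- the real part on the real line has an extension with the same bound -/
theorem re {s A : ℝ} {U : ℂ → ℂ} (h : Ext s U A) :
    ∃ G, Ext s G A ∧ ∀ θ : ℝ, G θ = ((U θ).re : ℝ) := by
  have hc : ∀ z ∈ strip s, (starRingEnd ℂ) z ∈ strip s := fun z hz => by
    simpa [strip] using hz
  refine ⟨fun z => (U z + (starRingEnd ℂ) (U ((starRingEnd ℂ) z))) / 2, ⟨?_, fun z hz => ?_,
    fun z hz => ?_⟩, fun θ => ?_⟩
  · refine (h.diff.add fun z hz => DifferentiableAt.differentiableWithinAt ?_).div_const 2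
    have := (h.diff.differentiableAt ((isOpen_strip s).mem_nhds (hc z hz))).conj_conj
    rwa [conj_conj] at this
  · have : (starRingEnd ℂ) (z + 2 * Real.pi) = (starRingEnd ℂ) z + 2 * Real.pi := by
      rw [map_add, map_mul, conj_ofReal, map_ofNat]
    rw [this, h.per z hz, h.per _ (hc z hz)]
  · rw [norm_div, Complex.norm_ofNat, div_le_iff₀ two_pos]
    refine (norm_add_le _ _).trans ?_
    rw [Complex.norm_conj]
    linarith [h.bd z hz, h.bd _ (hc z hz)]
  · simp only [conj_ofReal, add_conj]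
    push_cast
    ring

end Coh

open Coh in
theorem coh (four : FourStmt) : CohStmt := by
  intro w g hw
  have hg := hw.1
  have hZ : 0 ≤ ∑' n : ℤ, 1 / (n : ℝ) ^ 2 := tsum_nonneg fun n => by positivity
  refine ⟨max 1 (24 / g * ∑' n : ℤ, 1 / (n : ℝ) ^ 2), le_max_left _ _, ?_⟩
  intro P _ s c f ⟨hs, hc, hcont, hG⟩
  have hF : ∀ p, (∀ n : ℤ, ‖fc (fun θ => f p θ) n‖ ≤ c * Real.exp (-(|(n : ℝ)| * s))) ∧
      ∀ θ : ℝ, HasSum (fun n : ℤ => fc (fun θ => f p θ) n * exp (n * θ * I)) (f p θ) := fun p => by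
    obtain ⟨G, h, e⟩ := hG p
    simpa only [e] using four s c G hs h
  have hb : ∀ d, 0 < d → ∀ p (n : ℤ), ∀ z ∈ strip (s - d),
      ‖fc (fun θ => f p θ) n / (exp (n * w * I) - 1) * exp (n * z * I)‖ ≤
        24 / g * c / d ^ 4 * (1 / (n : ℝ) ^ 2) := fun d hd p n z hz => term hw hd hc ((hF p).1 n) hz
  have hr : ∀ θ : ℝ, (θ : ℂ) ∈ strip (s - s / 2) := fun θ => by simpa [strip] using hs
  refine ⟨fun p θ => (∑' n : ℤ, fc (fun θ => f p θ) n / (exp (n * w * I) - 1) *
    exp (n * θ * I)).re, fun p θ => ?_, fun d hd hds => ⟨sub_pos.2 hds, by positivity, ?_,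
      fun p => ?_⟩⟩
  · have hs1 : ∀ θ : ℝ, Summable fun n : ℤ =>
        fc (fun θ => f p θ) n / (exp (n * w * I) - 1) * exp (n * θ * I) := fun θ =>
      .of_norm_bounded (sm _) fun n => hb _ (half_pos hs) p n _ (hr θ)
    have h0 : fc (fun θ => f p θ) 0 = (avgM f p θ : ℝ) := by
      simp [fc, avgM, intervalIntegral.integral_ofReal]
    have h1 := ((hF p).2 θ).sub (hasSum_ite_eq 0 (fc (fun θ => f p θ) 0))
    have h2 := ((hs1 (θ + w)).hasSum.sub (hs1 θ).hasSum).unique (by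
      convert h1 using 2 with n
      split_ifs with hn
      · simp [hn]
      · have : exp (n * w * I) - 1 ≠ 0 := norm_pos_iff.1 ((div_pos hg (by positivity)).trans_le
          (hw.2 n hn))
        rw [show (n * (θ + w : ℝ) * I : ℂ) = n * θ * I + n * w * I by push_cast; ring, exp_add]
        field_simp
        ring)
    rw [← sub_re, h2, h0, sub_re, ofReal_re, ofReal_re]
  · refine continuous_re.comp (continuous_tsum (fun n => ?_) (sm _)
      fun n q => hb _ (half_pos hs) q.1 n _ (hr q.2))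
    refine Continuous.mul (Continuous.div_const ?_ _) (by fun_prop)
    refine (Continuous.const_mul (intervalIntegral.continuous_parametric_intervalIntegral_of_continuous'
      (f := fun (p : P) (θ : ℝ) => exp (-(n * θ * I)) * (f p θ : ℂ)) ?_ _ _) _).comp continuous_fst
    exact Continuous.mul (by fun_prop) (continuous_ofReal.comp hcont)
  · obtain ⟨G, h, e⟩ := re (ext (hb d hd p))
    refine ⟨G, ⟨h.diff, h.per, fun z hz => (h.bd z hz).trans ?_⟩, e⟩
    calc _ = (24 / g * ∑' n : ℤ, 1 / (n : ℝ) ^ 2) * c / d ^ 4 := by ring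
      _ ≤ _ := by gcongr; exact le_max_right _ _

end Pool.Agent.MP_1ba41f_an.S2.RK
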