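import Pool.Agent.MP_1ba41f_an.S2.RK.Bas
import Mathlib.Analysis.Calculus.Deriv.Prod

/-! Invariant circles with two reflections: estimates for compositions. -/

set_option autoImplicit false
set_option linter.unusedSectionVars false

open Set

namespace Pool.Agent.MP_1ba41f_an.S2.RK

namespace Comp

variable {P : Type} [MetricSpace P] {J : Type} [Fintype J] [DecidableEq J] {j0 : J}
  {s0 s t u c c' η : ℝ}

/-- the shrunken domains -/
def W (j0 : J) (s0 t : ℝ) : Set (J → ℂ) :=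
  {z | |(z j0).im| < s0 - t ∧ ∀ i, i ≠ j0 → ‖z i‖ < 1 - t}

theorem W_zero : W j0 s0 0 = DJ j0 s0 := by simp [W, DJ]

theorem W_mono (h : t ≤ u) : W j0 s0 u ⊆ W j0 s0 t := fun _ hz =>
  ⟨by linarith [hz.1], fun i hi => by linarith [hz.2 i hi]⟩

theorem isOpen_W : IsOpen (W j0 s0 t) := by
  have e : W j0 s0 t = {z : J → ℂ | |(z j0).im| < s0 - t} ∩
      ⋂ i : {i // i ≠ j0}, {z : J → ℂ | ‖z i‖ < 1 - t} := by
    ext z; simp [W]
  rw [e]
  exact (isOpen_lt (by fun_prop) continuous_const).inter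
    (isOpen_iInter_of_finite fun i => isOpen_lt (by fun_prop) continuous_const)

theorem ball_sub {z : J → ℂ} (hz : z ∈ W j0 s0 (t + u)) : Metric.ball z u ⊆ W j0 s0 t := by
  intro x hx
  rw [mem_ball_iff_norm] at hx
  have h : ∀ i, ‖x i - z i‖ < u := fun i => (norm_le_pi_norm (x - z) i).trans_lt hx
  refine ⟨?_, fun i hi => ?_⟩
  · have h1 := (Complex.abs_im_le_norm (x j0 - z j0)).trans_lt (h j0)
    rw [Complex.sub_im] at h1
    have h2 := abs_sub_abs_le_abs_sub (x j0).im (z j0).im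
    linarith [hz.1]
  · have h2 := norm_sub_norm_le (x i) (z i)
    linarith [hz.2 i hi, h i]

/-- holomorphic functions on a shrunken domain -/
structure HW (j0 : J) (s0 t η : ℝ) (g : P → (J → ℂ) → ℂ) : Prop where
  cont : ContinuousOn (fun q : P × (J → ℂ) => g q.1 q.2) (univ ×ˢ W j0 s0 t)
  diff : ∀ p, DifferentiableOn ℂ (g p) (W j0 s0 t)
  bd : ∀ p, ∀ z ∈ W j0 s0 t, ‖g p z‖ ≤ η
  per : ∀ p, ∀ z ∈ W j0 s0 t, g p (z + Pi.single j0 (2 * Real.pi : ℂ)) = g p z
  real : ∀ p (x : J → ℝ), (fun j => (x j : ℂ)) ∈ W j0 s0 t → (g p fun j => (x j : ℂ)).im = 0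

theorem hw_of {f : P → (J → ℂ) → ℂ} (h : HolJ j0 s0 η f) : HW j0 s0 0 η f := by
  refine ⟨?_, ?_, ?_, ?_, ?_⟩ <;> rw [W_zero]
  exacts [h.cont, h.diff, h.bd, h.per, h.real]

/-- the complex point over `z` -/
noncomputable def pz (j0 : J) (G : J → ℂ → ℂ) (z : ℂ) : J → ℂ :=
  fun j => (Pi.single j0 z : J → ℂ) j + G j z

theorem pz_real {G : J → ℂ → ℂ} {k : J → P → ℝ → ℝ} {p : P} (e : ∀ j (θ : ℝ), G j θ = k j p θ)
    (θ : ℝ) : pz j0 G θ = ptJ j0 k p θ := by
  funext j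
  by_cases h : j = j0
  · subst h; simp [pz, ptJ, e]
  · simp [pz, ptJ, e, h]

theorem pz_mem {G : J → ℂ → ℂ} (hG : ∀ j, Ext s (G j) c) (h1 : s + c ≤ s0 - t) (h2 : c < 1 - t)
    {z : ℂ} (hz : z ∈ strip s) : pz j0 G z ∈ W j0 s0 t := by
  refine ⟨?_, fun i hi => ?_⟩
  · have h3 := (Complex.abs_im_le_norm _).trans ((hG j0).bd z hz)
    have h4 : |z.im| < s := hz
    have h5 := abs_add_le z.im (G j0 z).im
    simp only [pz, Pi.single_eq_same, Complex.add_im]
    linarith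
  · simp only [pz, Pi.single_eq_of_ne hi, zero_add]
    exact ((hG i).bd z hz).trans_lt h2

theorem pz_diff {G : J → ℂ → ℂ} (hG : ∀ j, Ext s (G j) c) :
    DifferentiableOn ℂ (pz j0 G) (strip s) := by
  refine differentiableOn_pi.mpr fun j => ?_
  by_cases h : j = j0
  · subst h
    simp only [pz, Pi.single_eq_same]
    exact differentiableOn_id.add (hG j).diff
  · simpa [pz, h] using (hG j).diff

theorem pz_per {G : J → ℂ → ℂ} (hG : ∀ j, Ext s (G j) c) {z : ℂ} (hz : z ∈ strip s) :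
    pz j0 G (z + 2 * Real.pi) = pz j0 G z + Pi.single j0 (2 * Real.pi : ℂ) := by
  funext j
  simp only [pz, Pi.add_apply, (hG j).per z hz, Pi.single_add]
  ring

theorem ext_add {G H : ℂ → ℂ} (hG : Ext s G c) (hH : Ext s H c') : Ext s (G + H) (c + c') :=
  ⟨hG.diff.add hH.diff, fun z hz => by simp only [Pi.add_apply, hG.per z hz, hH.per z hz],
    fun z hz => (norm_add_le _ _).trans (add_le_add (hG.bd z hz) (hH.bd z hz))⟩

theorem bdm_add {a b : P → ℝ → ℝ} (ha : BdM s a c) (hb : BdM s b c') : BdM s (a + b) (c + c') := by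
  refine ⟨ha.1, add_nonneg ha.2.1 hb.2.1, ha.2.2.1.add hb.2.2.1, fun p => ?_⟩
  obtain ⟨G, hG, eG⟩ := ha.2.2.2 p
  obtain ⟨H, hH, eH⟩ := hb.2.2.2 p
  exact ⟨G + H, ext_add hG hH, fun θ => by simp [eG, eH]⟩

variable {g : P → (J → ℂ) → ℂ} {k : J → P → ℝ → ℝ}

theorem ext_comp (hg : HW j0 s0 t η g) (p : P) {G : J → ℂ → ℂ} (hG : ∀ j, Ext s (G j) c)
    (h1 : s + c ≤ s0 - t) (h2 : c < 1 - t) : Ext s (fun z => g p (pz j0 G z)) η :=
  ⟨(hg.diff p).comp (pz_diff hG) fun _ hz => pz_mem hG h1 h2 hz,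
    fun z hz => by rw [pz_per hG hz, hg.per p _ (pz_mem hG h1 h2 hz)],
    fun _ hz => hg.bd p _ (pz_mem hG h1 h2 hz)⟩

theorem pt_mem (hk : ∀ j, BdM s (k j) c) (h1 : s + c ≤ s0 - t) (h2 : c < 1 - t) (p : P) (θ : ℝ) :
    ptJ j0 k p θ ∈ W j0 s0 t := by
  choose G hG e using fun j => (hk j).2.2.2 p
  rw [← pz_real e]
  exact pz_mem hG h1 h2 (by simpa [strip] using (hk j0).1)

theorem val_comp (hg : HW j0 s0 t η g) {p : P} {θ : ℝ} (hm : ptJ j0 k p θ ∈ W j0 s0 t) :
    g p (ptJ j0 k p θ) = cF j0 g k p θ :=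
  Complex.ext rfl (hg.real p _ hm)

theorem bd_comp (hg : HW j0 s0 t η g) (h0 : 0 ≤ η) (hk : ∀ j, BdM s (k j) c)
    (h1 : s + c ≤ s0 - t) (h2 : c < 1 - t) : BdM s (cF j0 g k) η := by
  refine ⟨(hk j0).1, h0, ?_, fun p => ?_⟩
  · have hc : Continuous fun q : P × ℝ => (q.1, ptJ j0 k q.1 q.2) := by
      refine continuous_fst.prodMk (continuous_pi fun j => Complex.continuous_ofReal.comp ?_)
      refine Continuous.add ?_ (hk j).2.2.1
      by_cases h : j = j0
      · subst h; simpa using continuous_snd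
      · simpa [h] using continuous_const
    exact Complex.continuous_re.comp (hg.cont.comp_continuous hc
      fun q => ⟨mem_univ _, pt_mem hk h1 h2 q.1 q.2⟩)
  · choose G hG e using fun j => (hk j).2.2.2 p
    exact ⟨_, ext_comp hg p hG h1 h2, fun θ => by
      rw [pz_real e, val_comp hg (pt_mem hk h1 h2 p θ)]⟩

theorem clm_sum (L : (J → ℂ) →L[ℂ] ℂ) (v : J → ℂ) : L v = ∑ j, L (Pi.single j 1) * v j := by
  conv_lhs => rw [← Finset.univ_sum_single v, map_sum]
  refine Finset.sum_congr rfl fun j _ => ?_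
  rw [show (Pi.single j (v j) : J → ℂ) = v j • (Pi.single j 1 : J → ℂ) by
    rw [← Pi.single_smul, smul_eq_mul, mul_one], map_smul, smul_eq_mul, mul_comm]

theorem chain (hg : HW j0 s0 t η g) (hm : ∀ p θ, ptJ j0 k p θ ∈ W j0 s0 t)
    {k' : J → P → ℝ → ℝ} (hd : ∀ j, DerM (k j) (k' j)) :
    DerM (cF j0 g k) (∑ j, cB j0 g k j * ((Pi.single j0 1 : J → P → ℝ → ℝ) j + k' j)) := by
  intro p θ
  have h1 : HasDerivAt (ptJ j0 k p)
      (fun j => ((((Pi.single j0 1 : J → P → ℝ → ℝ) j + k' j) p θ : ℝ) : ℂ)) θ := by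
    refine hasDerivAt_pi.mpr fun j => HasDerivAt.ofReal_comp ?_
    by_cases h : j = j0
    · subst h
      simp only [Pi.single_eq_same, Pi.add_apply, Pi.one_apply]
      exact (hasDerivAt_id θ).add (hd j p θ)
    · simpa [h] using hd j p θ
  have h2 := (((hg.diff p).differentiableAt (isOpen_W.mem_nhds (hm p θ))).hasFDerivAt.restrictScalars
    ℝ).comp_hasDerivAt θ h1
  have h3 := Complex.reCLM.hasFDerivAt.comp_hasDerivAt θ h2
  refine HasDerivAt.congr_deriv h3 ?_
  rw [ContinuousLinearMap.coe_restrictScalars', clm_sum]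
  simp only [Finset.sum_apply, Pi.mul_apply, map_sum, Complex.reCLM_apply, Complex.re_mul_ofReal]
  rfl

end Comp

open Pool.Agent.MP_1ba41f_an.S2.RK.Comp in
theorem comp (cau : CauStmt) (par : ParStmt) : CompStmt := by
  intro J _ _ j0 s0 hs0
  obtain ⟨r, hr0, hr1, hr2⟩ : ∃ r : ℝ, 0 < r ∧ r ≤ s0 / 8 ∧ r ≤ 1 / 8 :=
    ⟨min (s0 / 8) (1 / 8), by positivity, min_le_left _ _, min_le_right _ _⟩
  have hC : 2 / r ≤ 12 / r ^ 2 := by
    rw [div_le_div_iff₀ hr0 (by positivity)]; nlinarith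
  refine ⟨r / 2, 12 / r ^ 2, by positivity, by linarith, ?_, fun P _ η f h0 hf s k hs hk => ?_⟩
  · rw [le_div_iff₀ (by positivity)]; nlinarith
  have hF := hw_of hf
  have hB : ∀ j, HW j0 s0 r (2 * η / r) fun p z => fderiv ℂ (f p) z (Pi.single j 1) := fun j => by
    obtain ⟨a1, a2, a3, a4, a5⟩ := par P J j0 j s0 η r f hr0 hf
    exact ⟨a1, a2, a3, a4, a5⟩
  have hη : 0 ≤ 2 * η / r := by positivity
  have hm : ∀ p θ, ptJ j0 k p θ ∈ W j0 s0 0 := pt_mem hk (by linarith) (by linarith)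
  have bF : BdM s (cF j0 f k) η := bd_comp hF h0 hk (by linarith) (by linarith)
  have bB : ∀ j, BdM s (cB j0 f k j) (2 * η / r) := fun j =>
    bd_comp (hB j) hη hk (by linarith) (by linarith)
  refine ⟨fun p θ => W_zero (j0 := j0) (s0 := s0) ▸ hm p θ, bF, fun j => ?_,
    fun ξ κ hξ hκ => ?_, fun k' hd => chain hF hm hd⟩
  · obtain ⟨a1, -, a3, a4⟩ := bB j
    refine ⟨a1, by positivity, a3, fun p => ?_⟩
    obtain ⟨G, hG, e⟩ := a4 p
    refine ⟨G, ⟨hG.diff, hG.per, fun z hz => (hG.bd z hz).trans ?_⟩, e⟩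
    calc 2 * η / r = 2 / r * η := by ring
      _ ≤ _ := by gcongr
  have hκ0 : 0 ≤ κ := (hξ j0).2.1
  have hk2 : ∀ j, BdM s ((k + ξ) j) (r / 2 + κ) := fun j => bdm_add (hk j) (hξ j)
  have bF2 : BdM s (cF j0 f (k + ξ)) η := bd_comp hF h0 hk2 (by linarith) (by linarith)
  have bB2 : ∀ j, BdM s (cB j0 f (k + ξ) j) (2 * η / r) := fun j =>
    bd_comp (hB j) hη hk2 (by linarith) (by linarith)
  have hn : ∀ (X : J → ℂ → ℂ), (∀ j, Ext s (X j) κ) → ∀ z ∈ strip s, ‖fun j => X j z‖ ≤ κ :=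
    fun X hX z hz => (pi_norm_le_iff_of_nonneg hκ0).mpr fun j => (hX j).bd z hz
  have hadd : ∀ (G X : J → ℂ → ℂ) (z : ℂ), pz j0 (G + X) z = pz j0 G z + fun j => X j z :=
    fun G X z => by funext j; simp only [pz, Pi.add_apply]; ring
  refine ⟨⟨bF.1, by positivity, ?_, fun p => ?_⟩, fun j => ⟨bF.1, by positivity, ?_, fun p => ?_⟩⟩
  · simp only [Pi.sub_apply, Finset.sum_apply, Pi.mul_apply]
    exact (bF2.2.2.1.sub bF.2.2.1).sub
      (continuous_finsetSum _ fun j _ => (bB j).2.2.1.mul (hξ j).2.2.1)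
  · choose G hG eG using fun j => (hk j).2.2.2 p
    choose X hX eX using fun j => (hξ j).2.2.2 p
    have hGX : ∀ j, Ext s ((G + X) j) (r / 2 + κ) := fun j => ext_add (hG j) (hX j)
    have eGX : ∀ j (θ : ℝ), (G + X) j θ = (k + ξ) j p θ := fun j θ => by simp [eG, eX]
    have x1 := ext_comp hF p hGX (by linarith) (by linarith)
    have x2 := ext_comp hF p hG (by linarith) (by linarith)
    have x3 := fun j => ext_comp (hB j) p hG (by linarith) (by linarith)
    refine ⟨fun z => f p (pz j0 (G + X) z) - f p (pz j0 G z) -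
      ∑ j, fderiv ℂ (f p) (pz j0 G z) (Pi.single j 1) * X j z, ⟨?_, fun z hz => ?_,
        fun z hz => ?_⟩, fun θ => ?_⟩
    · exact (x1.diff.sub x2.diff).sub
        (DifferentiableOn.fun_sum fun j _ => (x3 j).diff.mul (hX j).diff)
    · rw [x1.per z hz, x2.per z hz]
      congr 1
      exact Finset.sum_congr rfl fun j _ => by rw [(x3 j).per z hz, (hX j).per z hz]
    · have hb : Metric.ball (pz j0 G z) r ⊆ W j0 s0 0 :=
        ball_sub (pz_mem hG (by linarith) (by linarith) hz)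
      have hc := (cau _ (f p) _ r η hr0 ((hF.diff p).mono hb)
        fun x hx => hF.bd p x (hb hx)).2 _ ((hn X hX z hz).trans hκ)
      rw [hadd, ← clm_sum _ fun j => X j z]
      refine hc.trans ?_
      have := hn X hX z hz
      calc 8 * η / r ^ 2 * ‖fun j => X j z‖ ^ 2 ≤ 12 * η / r ^ 2 * κ ^ 2 := by
            gcongr; norm_num
        _ = _ := by ring
    · beta_reduce
      rw [pz_real eGX, pz_real eG, val_comp hF (hm p θ),
        val_comp hF (pt_mem hk2 (by linarith) (by linarith) p θ)]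
      simp only [Pi.sub_apply, Finset.sum_apply, Pi.mul_apply]
      push_cast
      congr 1
      refine Finset.sum_congr rfl fun j _ => ?_
      rw [eX, val_comp (hB j) (pt_mem hk (by linarith) (by linarith) p θ)]
      rfl
  · exact (bB2 j).2.2.1.sub (bB j).2.2.1
  · choose G hG eG using fun j => (hk j).2.2.2 p
    choose X hX eX using fun j => (hξ j).2.2.2 p
    have hGX : ∀ j, Ext s ((G + X) j) (r / 2 + κ) := fun j => ext_add (hG j) (hX j)
    have eGX : ∀ j (θ : ℝ), (G + X) j θ = (k + ξ) j p θ := fun j θ => by simp [eG, eX]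
    have x1 := ext_comp (hB j) p hGX (by linarith) (by linarith)
    have x2 := ext_comp (hB j) p hG (by linarith) (by linarith)
    refine ⟨fun z => fderiv ℂ (f p) (pz j0 (G + X) z) (Pi.single j 1) -
      fderiv ℂ (f p) (pz j0 G z) (Pi.single j 1), ⟨x1.diff.sub x2.diff, fun z hz => ?_,
        fun z hz => ?_⟩, fun θ => ?_⟩
    · rw [x1.per z hz, x2.per z hz]
    · have hb : Metric.ball (pz j0 G z) r ⊆ W j0 s0 r :=
        ball_sub (pz_mem hG (by linarith) (by linarith) hz)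
      obtain ⟨c1, c2⟩ := cau _ _ _ r _ hr0 (((hB j).diff p).mono hb)
        fun x hx => (hB j).bd p x (hb hx)
      have hx := hn X hX z hz
      have c3 := c1 fun j => X j z
      have c4 := c2 _ (hx.trans hκ)
      rw [hadd]
      set n := ‖fun j => X j z‖
      have hn0 : 0 ≤ n := norm_nonneg _
      refine (norm_le_norm_sub_add _ _).trans ((add_le_add c4 c3).trans ?_)
      have c5 : n ^ 2 ≤ r / 2 * κ := by nlinarith
      calc 8 * (2 * η / r) / r ^ 2 * n ^ 2 + 2 * (2 * η / r) / r * n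
          ≤ 8 * (2 * η / r) / r ^ 2 * (r / 2 * κ) + 2 * (2 * η / r) / r * κ := by gcongr
        _ = _ := by field_simp; ring
    · beta_reduce
      rw [pz_real eGX, pz_real eG,
        val_comp (hB j) (pt_mem hk (by linarith) (by linarith) p θ),
        val_comp (hB j) (pt_mem hk2 (by linarith) (by linarith) p θ)]
      simp only [Pi.sub_apply]
      push_cast
      rfl

end Pool.Agent.MP_1ba41f_an.S2.RK
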