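import Pool.Agent.MP_1ba41f_an.S2.RK.Bas

/-! Invariant circles with two reflections: decomposition along the frame. -/

set_option autoImplicit false
set_option linter.unusedSectionVars false

open Matrix

namespace Pool.Agent.MP_1ba41f_an.S2.RK

namespace Dec

variable {A : Type} [CommRing A] [Algebra ℝ A] {Γ : ℝ} {ι : Type} [Fintype ι] [DecidableEq ι]
  (S : Sc A Γ) (sd : ι → Fin 2)

/-- the geometric series of a contraction that keeps the parity -/
theorem neu {s c : ℝ} (Φ : (MM ι → A) →+ (MM ι → A))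
    (hb : ∀ v c, (∀ m, S.Bd s (v m) c) → ∀ m, S.Bd s (Φ v m) (c / 2))
    (hp : ∀ v, Par S 1 v → Par S 1 (Φ v)) {u : MM ι → A} (hu : ∀ m, S.Bd s (u m) c)
    (pu : Par S 1 u) : ∃ v, Par S 1 v ∧ (∀ m, S.Bd s (v m) (2 * c)) ∧ v = u + Φ v := by
  have h1 : ∀ n : ℕ, Par S 1 (Φ^[n] u) ∧ ∀ m, S.Bd s (Φ^[n] u m) (c / 2 ^ n) := by
    intro n
    induction n with
    | zero => exact ⟨pu, fun m => S.le (hu m) (by simp)⟩
    | succ n ih =>
      rw [Function.iterate_succ_apply']
      exact ⟨hp _ ih.1, fun m => S.le (hb _ _ ih.2 m) (le_of_eq (by ring))⟩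
  choose v hv using fun m => S.complete (f := fun n => Φ^[n] u m) fun n => (h1 n).2 m
  have h2 : ∀ (N : ℕ) m, S.Bd s ((v - ∑ n ∈ Finset.range N, Φ^[n] u) m) (2 * c / 2 ^ N) :=
    fun N m => S.cong (hv m N) (by rw [Pi.sub_apply, Finset.sum_apply])
  refine ⟨v, fun a => ?_, fun m => by simpa using hv m 0, ?_⟩
  · rw [← sub_eq_zero]
    refine S.sep (s := s) (c := 4 * c) fun N => ?_
    refine S.le (S.cong (S.sub (S.refl a.1 (hv (.inl a) N))
      (S.smul (1 * sg a.2) (hv (.inl a) N))) ?_) (le_of_eq ?_)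
    · rw [map_sub, smul_sub, map_sum, Finset.smul_sum,
        Finset.sum_congr rfl fun n _ => (h1 n).1 a]
      ring
    · rw [one_mul, abs_sg]; ring
  · funext m
    rw [← sub_eq_zero]
    refine S.sep (s := s) (c := 2 * c) fun N => ?_
    refine S.le (S.cong (S.sub (h2 (N + 1) m) (hb _ _ (h2 N) m)) ?_) (le_of_eq (by ring))
    rw [map_sub, map_sum, Finset.sum_range_succ']
    simp only [Function.iterate_succ_apply', Function.iterate_zero, id, Pi.sub_apply, Pi.add_apply]
    ring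

/-- the slave part of the unknown -/
def zv (v : MM ι → A) : JJ ι → A := Sum.elim (fun _ => 0) fun j => v (.inr j)

/-- weights -/
noncomputable def wt : MM ι → ℝ := Sum.elim (fun _ => 1 / 2) fun _ => 1

/-- the combination of the frame with coefficients `v` -/
def Mv (B : Matrix (OO ι) (JJ ι) A) (T W : JJ ι → A) (v : MM ι → A) (m : MM ι) : A :=
  v (.inl (side sd m, 0)) * LL S sd B 1 T m + v (.inl (side sd m, 1)) * LL S sd B (-1) W m +
    LL S sd B 1 (zv v) m

theorem zv_add (v v' : MM ι → A) : zv (v + v') = zv v + zv v' := by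
  funext j; cases j <;> simp [zv]

theorem wt_pos (m : MM ι) : 0 < wt m ∧ wt m ≤ 1 := by cases m <;> norm_num [wt]

theorem bd_zv {s c : ℝ} {v : MM ι → A} (h : ∀ m, S.Bd s (v m) c) (j : JJ ι) :
    S.Bd s (zv v j) c := by
  cases j with
  | inl a => exact S.zero (S.pos (h (.inl (0, 0)))) (S.nonneg (h (.inl (0, 0))))
  | inr j => exact h _

theorem key (v : MM ι → A) (m : MM ι) :
    wt m • (v (.inl (side sd m, 0)) * Lop S sd 1 (ee 0) 0 m +
      v (.inl (side sd m, 1)) * Lop S sd (-1) (ee 1) 0 m + Lop S sd 1 (zv v) 0 m) = v m := by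
  have h : ∀ x : A, (2⁻¹ : ℝ) • (x * (1 + 1)) = x := fun x => by
    rw [mul_add, mul_one, ← two_smul ℝ x, smul_smul]; norm_num
  rcases m with ⟨i, a⟩ | j
  · fin_cases a <;> simp [Lop, ee, sg, wt, zv, side, h]
  · simp [Lop, ee, wt, zv]

theorem par_Mv (B : Matrix (OO ι) (JJ ι) A) (T W : JJ ι → A) {v : MM ι → A} (h : Par S 1 v) :
    Par S 1 (Mv S sd B T W v) := by
  intro a
  have h0 := h (a.1, 0)
  have h1 := h (a.1, 1)
  simp only [sg_zero, sg_one, one_mul, one_smul, neg_smul] at h0 h1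
  simp only [Mv, side, Sum.elim_inl, map_add, map_mul, h0, h1, par_LL S sd (one_mul 1) B _ a,
    par_LL S sd (e := -1) (by norm_num) B _ a, smul_add, mul_smul_comm, one_mul, neg_mul, neg_smul,
    mul_neg, smul_neg, neg_neg]

/-- the remainder map -/
noncomputable def Ph (B : Matrix (OO ι) (JJ ι) A) (T W : JJ ι → A) : (MM ι → A) →+ (MM ι → A) :=
  AddMonoidHom.mk' (fun v m => v m - wt m • Mv S sd B T W v m) fun v v' => by
    funext m
    simp only [Mv, zv_add, LL_add, Pi.add_apply, add_mul, smul_add]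
    ring

theorem Ph_ap (B : Matrix (OO ι) (JJ ι) A) (T W : JJ ι → A) (v : MM ι → A) (m : MM ι) :
    Ph S sd B T W v m = v m - wt m • Mv S sd B T W v m := rfl

theorem bd_Ph {s η c : ℝ} {B : Matrix (OO ι) (JJ ι) A} {T W : JJ ι → A} {σ : Fin 2 → A}
    (F : Fr S s η B T W σ) (hη : η ≤ 1) {v : MM ι → A} (h : ∀ m, S.Bd s (v m) c) (m : MM ι) :
    S.Bd s (Ph S sd B T W v m) ((4 + 10 * Fintype.card (JJ ι)) * η * c) := by
  have hs := S.pos (h m)
  have hc := S.nonneg (h m)
  have h0 := S.nonneg (F.hσ 0)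
  have hn : (0 : ℝ) ≤ Fintype.card (JJ ι) := Nat.cast_nonneg _
  have e1 : ∀ (e : ℝ) (x y : JJ ι → A),
      LL S sd B e x m = Lop S sd e y 0 m + Lop S sd e (x - y) (B *ᵥ x) m := fun e x y => by
    rw [← Lop_add, add_sub_cancel, zero_add, LL]
  have b1 : ∀ (e : ℝ) (x : JJ ι → A) (a : Fin 2), |e| = 1 → (∀ j, S.Bd s (x j - ee a j) η) →
      S.Bd s (Lop S sd e (x - ee a) (B *ᵥ x) m) (2 * (η + Fintype.card (JJ ι) * (η * 2))) :=
    fun e x a he hx => bd_Lop S sd he hx
      (S.mulVec F.hB fun j => S.le (S.near hx j) (by linarith)) m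
  have b2 := bd_Lop S sd (e := 1) (x := zv v - zv v) abs_one
    (fun j => S.cong (S.zero hs le_rfl) (by simp)) (S.mulVec F.hB (bd_zv S h)) m
  have b3 := S.neg (S.smul (wt m) (S.add (S.add
    (S.mul (h (.inl (side sd m, 0))) (b1 1 T 0 abs_one F.hT))
    (S.mul (h (.inl (side sd m, 1))) (b1 (-1) W 1 (by simp) F.hW))) b2))
  refine S.le (S.cong b3 ?_) ?_
  · rw [Ph_ap, Mv, e1 1 T (ee 0), e1 (-1) W (ee 1), e1 1 (zv v) (zv v)]
    have := key S sd v m
    simp only [mul_add, smul_add] at this ⊢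
    linear_combination this
  · rw [abs_of_pos (wt_pos m).1]
    refine (mul_le_of_le_one_left (by positivity) (wt_pos m).2).trans (le_of_eq (by ring))

end Dec

open Dec in
theorem dec : DecStmt := by
  intro ι _ _
  have hn : (0 : ℝ) ≤ Fintype.card (JJ ι) := Nat.cast_nonneg _
  set K : ℝ := 4 + 10 * Fintype.card (JJ ι) with hK
  have hK4 : 4 ≤ K := by linarith
  refine ⟨2 * K, 1 / (2 * K), by positivity, by positivity, ?_⟩
  intro A _ _ Γ S sd s η c B T W σ R F hη pR hR
  rw [le_div_iff₀ (by positivity)] at hη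
  have h0 := S.nonneg (F.hσ 0)
  have hη1 : η ≤ 1 := by nlinarith
  have hc := S.nonneg (hR (.inl (0, 0)))
  obtain ⟨v, pv, bv, ev⟩ := neu S (s := s) (c := c) (Ph S sd B T W)
    (fun v c h m => S.le (bd_Ph S sd F hη1 h m) (by nlinarith [S.nonneg (h m)]))
    (fun v h a => by
      rw [Ph_ap, map_sub, map_smul, h a, par_Mv S sd B T W h a, smul_sub, smul_comm])
    (u := fun m => wt m • R m)
    (fun m => S.le (S.smul _ (hR m)) (by
      rw [abs_of_pos (wt_pos m).1]; exact mul_le_of_le_one_left hc (wt_pos m).2))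
    (fun a => by rw [map_smul, pR a, smul_comm])
  have cl : ∀ m, S.Bd s (v m - wt m • R m) (2 * K * η * c) := fun m => by
    refine S.le (S.cong (bd_Ph S sd F hη1 bv m) ?_) (le_of_eq (by ring))
    have := congrFun ev m
    rw [Pi.add_apply] at this
    linear_combination -this
  refine ⟨fun i => v (.inl (i, 0)), fun i => v (.inl (i, 1)), zv v, fun i => ?_, fun i => ?_,
    fun i => bv _, fun i => bv _, bd_zv S bv, fun i => cl (.inl (i, 0)), fun i => cl (.inl (i, 1)),
    fun m => ?_⟩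
  · simpa [sg] using pv (i, 0)
  · simpa [sg] using pv (i, 1)
  · have h1 := congrFun ev m
    rw [Pi.add_apply, Ph_ap] at h1
    have h2 : wt m • Mv S sd B T W v m = wt m • R m := by linear_combination h1
    have h3 := congrArg (fun x => (wt m)⁻¹ • x) h2
    simpa only [inv_smul_smul₀ (wt_pos m).1.ne', Mv] using h3

end Pool.Agent.MP_1ba41f_an.S2.RK
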