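import Pool.Agent.MP_1ba41f_an.S2.RK.Bas
import Mathlib.Analysis.Complex.CauchyIntegral
import Mathlib.Analysis.Fourier.AddCircle

/-! Fourier coefficients of functions that are holomorphic on a strip. -/

set_option autoImplicit false

open Set Filter Topology Complex

namespace Pool.Agent.MP_1ba41f_an.S2.RK

namespace Four

variable {s c : ℝ} {G : ℂ → ℂ}

theorem shift (h : Ext s G c) (n : ℤ) {y : ℝ} (hy : |y| < s) :
    ∫ θ in (0 : ℝ)..2 * Real.pi, exp (-(n * θ * I)) * G θ =
      ∫ θ in (0 : ℝ)..2 * Real.pi, exp (-(n * (θ + y * I) * I)) * G (θ + y * I) := by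
  have m : ∀ t ∈ uIcc (0 : ℝ) y, |t| < s := fun t ht => by
    have := abs_sub_left_of_mem_uIcc ht
    rw [sub_zero, sub_zero] at this
    exact this.trans_lt hy
  have k := integral_boundary_rect_eq_zero_of_differentiableOn
    (fun z => exp (-(n * z * I)) * G z) 0 ⟨2 * Real.pi, y⟩
    (DifferentiableOn.mul (by fun_prop) (h.diff.mono fun z hz => m _ hz.2))
  have v : ∫ t in (0 : ℝ)..y, exp (-(n * (((2 * Real.pi : ℝ) : ℂ) + t * I) * I)) *
      G (((2 * Real.pi : ℝ) : ℂ) + t * I) =
      ∫ t in (0 : ℝ)..y, exp (-(n * (t * I) * I)) * G (t * I) :=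
    intervalIntegral.integral_congr fun t ht => by
      have e : -(n * (2 * Real.pi + t * I) * I) =
          -(n * (t * I) * I) + (-n : ℤ) * (2 * Real.pi * I) := by
        push_cast
        ring
      push_cast
      rw [e, exp_add, exp_int_mul_two_pi_mul_I, mul_one, add_comm,
        h.per _ (by simpa [strip] using m t ht)]
  simp only [zero_re, zero_im, ofReal_zero, zero_mul, add_zero, zero_add] at k
  rw [v] at k
  linear_combination k

theorem bound (h : Ext s G c) (n : ℤ) {y : ℝ} (hy : |y| < s) :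
    ‖fc (fun θ => G θ) n‖ ≤ c * Real.exp (n * y) := by
  have p := Real.two_pi_pos
  have k := intervalIntegral.norm_integral_le_of_norm_le_const (a := 0) (b := 2 * Real.pi)
    (f := fun θ : ℝ => exp (-(n * (θ + y * I) * I)) * G (θ + y * I)) (C := Real.exp (n * y) * c)
    fun θ _ => by
      rw [norm_mul, norm_exp]
      simp only [neg_re, mul_re, mul_im, add_re, add_im, intCast_re, intCast_im, ofReal_re,
        ofReal_im, I_re, I_im, mul_zero, zero_mul, mul_one, zero_sub, neg_neg, zero_add, add_zero]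
      exact mul_le_mul_of_nonneg_left (h.bd _ (by simpa [strip] using hy)) (Real.exp_pos _).le
  have e : ‖(2 * Real.pi : ℂ)⁻¹‖ = (2 * Real.pi)⁻¹ := by simp [abs_of_pos Real.pi_pos]
  rw [sub_zero, abs_of_pos p] at k
  rw [fc, norm_mul, shift h n hy, e, inv_mul_le_iff₀ p]
  exact k.trans (le_of_eq (by ring))

theorem decay (hs : 0 < s) (h : Ext s G c) (n : ℤ) :
    ‖fc (fun θ => G θ) n‖ ≤ c * Real.exp (-(|(n : ℝ)| * s)) := by
  have T : Tendsto (fun t : ℝ => c * Real.exp (-(|(n : ℝ)| * t))) (𝓝[<] s)
      (𝓝 (c * Real.exp (-(|(n : ℝ)| * s)))) :=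
    (Continuous.tendsto (by fun_prop) s).mono_left nhdsWithin_le_nhds
  refine ge_of_tendsto T ?_
  filter_upwards [Ioo_mem_nhdsLT hs] with t ht
  rcases le_total 0 (n : ℝ) with h0 | h0
  · have := bound h n (y := -t) (by rw [abs_neg, abs_of_pos ht.1]; exact ht.2)
    rwa [abs_of_nonneg h0, ← mul_neg]
  · have := bound h n (y := t) (by rw [abs_of_pos ht.1]; exact ht.2)
    rwa [abs_of_nonpos h0, neg_mul, neg_neg]

theorem summ (hs : 0 < s) : Summable fun n : ℤ => c * Real.exp (-(|(n : ℝ)| * s)) := by
  have g : Summable fun n : ℕ => Real.exp (-(n * s)) := by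
    simpa only [← Real.exp_nat_mul, mul_neg] using summable_geometric_of_lt_one
      (Real.exp_pos (-s)).le (Real.exp_lt_one_iff.2 (neg_neg_of_pos hs))
  exact Summable.mul_left c (Summable.of_nat_of_neg (by simpa using g) (by simpa using g))

end Four

open Four in
theorem four : FourStmt := by
  intro s c G hs h
  refine ⟨decay hs h, fun θ => ?_⟩
  have m : ∀ x : ℝ, (x : ℂ) ∈ strip s := fun x => by simpa [strip] using hs
  have per : Function.Periodic (fun x : ℝ => G x) (2 * Real.pi) := fun x => by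
    simpa using h.per _ (m x)
  have co : Continuous fun x : ℝ => G x :=
    h.diff.continuousOn.comp_continuous continuous_ofReal m
  have : Fact (0 < 2 * Real.pi) := ⟨Real.two_pi_pos⟩
  let F : C(AddCircle (2 * Real.pi), ℂ) := ⟨per.lift, continuous_coinduced_dom.mpr co⟩
  have fo : ∀ (n : ℤ) (x : ℝ), fourier n (x : AddCircle (2 * Real.pi)) = exp (n * x * I) :=
    fun n x => by
      have : (Real.pi : ℂ) ≠ 0 := ofReal_ne_zero.2 Real.pi_ne_zero
      rw [fourier_coe_apply]
      congr 1
      push_cast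
      field_simp
  have e : ∀ n, fourierCoeff F n = fc (fun x => G x) n := fun n => by
    rw [fourierCoeff_eq_intervalIntegral _ _ 0, zero_add, fc, real_smul]
    simp only [fo, Int.cast_neg, neg_mul, smul_eq_mul]
    push_cast
    rw [one_div]
    rfl
  have := has_pointwise_sum_fourier_series_of_summable (f := F)
    ((summ (c := c) hs).of_norm_bounded fun n => e n ▸ decay hs h n) (θ : ℝ)
  simp only [e, fo, smul_eq_mul] at this
  exact this

end Pool.Agent.MP_1ba41f_an.S2.RK
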