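import Pool.Agent.MP_1ba41f_an.S2.RK.Bas

/-! Invariant circles with two reflections: correction of the normal vector. -/

set_option autoImplicit false

namespace Pool.Agent.MP_1ba41f_an.S2.RK

theorem frw (dec : DecStmt) (sol : SolStmt) : FrwStmt := by
  intro ι _ _ Γ
  obtain ⟨C, η0, -, h0, hdec⟩ := dec ι
  refine ⟨20 * |Γ| + 2, min η0 1, by positivity, lt_min h0 one_pos, ?_⟩
  intro A _ _ S sd s d η κ B T W σ hs hd hds fr hη hρ
  obtain ⟨p, q, ζ, pe, qo, bp, bq, bζ, -, -, eq⟩ := hdec A Γ S sd s η κ B T W σ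
    (-rho S sd B T W σ) fr (hη.trans (min_le_left _ _)) (par_rho S sd B T W fr.ev).neg
    fun m => S.neg (hρ m)
  obtain ⟨β, hβ, bβ⟩ := (sol A Γ S s (2 * κ) q hs bq).1 qo
  have bβ := bβ d hd hds
  have η1 : η ≤ 1 := hη.trans (min_le_right _ _)
  have η0' : 0 ≤ η := S.nonneg (fr.hσ 0)
  have κ0 : 0 ≤ κ := S.nonneg (hρ (.inl (0, 0)))
  have Γ1 := S.one_le
  have l0 : 0 < s - d := by linarith
  have l1 : s - d ≤ s := by linarith
  have d4 : 0 < d ^ 4 := by positivity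
  have d1 : d ^ 4 ≤ 1 := pow_le_one₀ hd.le (by linarith)
  set x := κ / d ^ 4 with hx
  have x0 : 0 ≤ x := by positivity
  have κx : κ ≤ x := le_div_self κ0 d4 d1
  have e1 : 5 * Γ * (2 * κ) / d ^ 4 = 10 * (Γ * x) := by rw [hx]; ring
  have e2 : (20 * |Γ| + 2) * κ / d ^ 4 = 20 * (Γ * x) + 2 * x := by
    rw [hx, abs_of_pos (by linarith)]; ring
  have e3 : (20 * |Γ| + 2) * κ ^ 2 / d ^ 4 = (20 * (Γ * x) + 2 * x) * κ := by
    rw [← e2]; ring
  have gx : 0 ≤ Γ * x := by positivity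
  rw [e1] at bβ
  rw [e2, e3]
  refine ⟨β • W + ζ, fun i => σ i * (1 / 2 : ℝ) • (β + S.r i β) - p i, fun j => ?_, fun i => ?_,
    fun i => ?_, fun m => ?_⟩
  · refine S.le (S.add (S.mul bβ (S.lev (S.near fr.hW j) l0 l1)) (S.lev (bζ j) l0 l1)) ?_
    nlinarith
  · refine S.le (S.sub (S.mul (S.lev (fr.hσ i) l0 l1) (S.ev i bβ)) (S.lev (bp i) l0 l1)) ?_
    nlinarith
  · simp only [map_sub, map_mul, map_smul, map_add, S.rr, fr.ev, pe, add_comm]
  · refine S.cong (S.le (S.mul (S.ev (side sd m) bβ) (S.lev (hρ m) l0 l1)) (by nlinarith)) ?_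
    have h := eq m
    have hq : (1 / 2 : ℝ) • (β - S.r (side sd m) β) = q (side sd m) := by
      rw [hβ, smul_smul]; norm_num
    simp only [rho, Pi.neg_apply, Pi.add_apply, LL_add, LL_mul, hq] at h ⊢
    linear_combination -h

end Pool.Agent.MP_1ba41f_an.S2.RK
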