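import Pool.Agent.MP_1ba41f_an.S2.RK.Bas

/-! Invariant circles with two reflections: the limit of the Newton scheme. -/

set_option autoImplicit false
set_option linter.unusedSectionVars false

open Matrix

namespace Pool.Agent.MP_1ba41f_an.S2.RK

namespace Kam

theorem seq {X : Type} (P : ℕ → X → Prop) (Q : ℕ → X → X → Prop) (x0 : X) (h0 : P 0 x0)
    (hs : ∀ n x, P n x → ∃ y, P (n + 1) y ∧ Q n x y) :
    ∃ u : ℕ → X, ∀ n, P n (u n) ∧ Q n (u n) (u (n + 1)) := by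
  choose f hf hq using hs
  let v : (n : ℕ) → {x // P n x} := fun n =>
    Nat.rec ⟨x0, h0⟩ (fun n x => ⟨f n x.1 x.2, hf n x.1 x.2⟩) n
  exact ⟨fun n => (v n).1, fun n => ⟨(v n).2, hq n _ (v n).2⟩⟩

theorem numA {C S0 κ q : ℝ} (hC : 0 < C) (hS : 0 < S0) (hκ : 0 < κ) (hq : 1 ≤ q) :
    C * (κ / q ^ 27) / (S0 / (20 * q)) ^ 13 ≤ C * (20 / S0) ^ 13 * κ / q := by
  have h0 : 0 < q := by linarith
  have e : C * (κ / q ^ 27) / (S0 / (20 * q)) ^ 13 = C * (20 / S0) ^ 13 * κ / q ^ 14 := by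
    field_simp
  rw [e]
  exact div_le_div_of_nonneg_left (by positivity) h0 (le_self_pow₀ hq (by norm_num))

theorem numB {C S0 κ q : ℝ} (hS : 0 < S0) (hκ : 0 < κ) (hq : 1 ≤ q)
    (h : C * (20 / S0) ^ 26 * 2 ^ 27 * κ ≤ 1) :
    C * (κ / q ^ 27) ^ 2 / (S0 / (20 * q)) ^ 26 ≤ κ / (q * 2) ^ 27 := by
  have h0 : 0 < q := by linarith
  have e : C * (κ / q ^ 27) ^ 2 / (S0 / (20 * q)) ^ 26 =
      C * (20 / S0) ^ 26 * 2 ^ 27 * κ * (κ / (q * 2) ^ 27 / q) := by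
    field_simp
  have h1 : 0 < κ / (q * 2) ^ 27 := by positivity
  rw [e]
  exact (mul_le_of_le_one_left (by positivity) h).trans (div_le_self h1.le hq)

variable {A : Type} [CommRing A] [Algebra ℝ A] {Γ : ℝ} {ι : Type} [Fintype ι] [DecidableEq ι]
  (S : Sc A Γ) (sd : ι → Fin 2)

theorem lim {s c : ℝ} {u : ℕ → A} (h : ∀ n, S.Bd s (u (n + 1) - u n) (c / 2 ^ n)) :
    ∃ g, ∀ N, S.Bd s (g - u N) (2 * c / 2 ^ N) := by
  obtain ⟨g, hg⟩ := S.complete h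
  refine ⟨g + u 0, fun N => S.cong (hg N) ?_⟩
  rw [Finset.sum_range_sub]
  ring

theorem cst_lim {s c : ℝ} {u : ℕ → A} {g : A} (hu : ∀ n, S.Der (u n) 0)
    (h : ∀ N, S.Bd s (g - u N) (c / 2 ^ N)) : S.Der g 0 := by
  have hs : 0 < s := S.pos (h 0)
  have key : ∀ N, ∃ g', S.Der g g' ∧ S.Bd (s - s / 2) g' (c / (s / 2) / 2 ^ N) := fun N => by
    obtain ⟨g', h1, h2⟩ := S.der (d := s / 2) (by linarith) (by linarith) (h N)
    refine ⟨g', by simpa using S.der_add h1 (hu N), S.le h2 (le_of_eq ?_)⟩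
    ring
  choose g' h1 h2 using key
  have : g' 0 = 0 := S.sep fun N => S.cong (h2 N) (S.der_uniq (h1 N) (h1 0))
  exact this ▸ h1 0

variable {F : (JJ ι → A) → OO ι → A} {B : (JJ ι → A) → Matrix (OO ι) (JJ ι) A}

theorem weak {s η κ η' κ' : ℝ} {k k' W : JJ ι → A} {σ : Fin 2 → A} {lam : A}
    (h : St S sd F B s η κ k k' W σ lam) (h1 : η ≤ η') (h2 : κ ≤ κ') :
    St S sd F B s η' κ' k k' W σ lam :=
  ⟨fun j => S.le (h.hk j) h1, h.der, h.fr.mono S (S.pos h.hl) le_rfl h1, h.cl, S.le h.hl h1,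
    fun m => S.le (h.err m) h2, fun m => S.le (h.erw m) h2⟩

theorem start {S0 r0 C0 ε : ℝ} (hS : 0 < S0) (hr : 0 < r0) (hε : 0 < ε)
    (hF : IsF S S0 r0 C0 ε F B) : St S sd F B S0 ε (2 * ε) 0 0 (ee 1) 0 0 := by
  have z : ∀ {c : ℝ}, 0 ≤ c → S.Bd S0 0 c := fun hc => S.zero hS hc
  have h0 : ∀ j : JJ ι, S.Bd S0 ((0 : JJ ι → A) j) r0 := fun _ => z hr.le
  have h00 : ∀ j : JJ ι, S.Bd S0 ((0 : JJ ι → A) j) 0 := fun _ => z le_rfl
  refine ⟨fun _ => z hε.le, fun _ => S.der_zero, ⟨hF.bB le_rfl h0, fun j => ?_, fun j => ?_,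
    fun _ => z hε.le, fun i => map_zero _⟩, S.der_zero, z hε.le, fun m => ?_, fun m => ?_⟩
  · simpa using z hε.le
  · simpa using z hε.le
  · simpa using bd_Lop S sd abs_one h00 (hF.bF le_rfl h0) m
  · have h1 : ∀ o, S.Bd S0 ((B 0 *ᵥ ee 1) o) ε := fun o => by
      simpa [ee] using hF.bB le_rfl h0 o (.inl 1)
    have h2 := Lop_add S sd 1 (ee 1) 0 0 (B 0 *ᵥ ee 1) m
    rw [add_zero, zero_add, Lop_ee1, zero_add] at h2
    simpa [rho, LL, h2] using bd_Lop S sd abs_one h00 h1 m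

theorem final {S0 r0 C0 ε s t κ : ℝ} {k x : JJ ι → A} {lam l : A} (hC : 0 ≤ C0)
    (hF : IsF S S0 r0 C0 ε F B) (hs : s ≤ S0) (hx : ∀ j, S.Bd s (x j) r0)
    (hk : ∀ j, S.Bd s (k j - x j) t) (ht : t ≤ r0) (hl : S.Bd s (lam - l) t) (m : MM ι)
    (he : S.Bd s (Lop S sd 1 x (F x) m + l * cv m) κ) :
    S.Bd s (Lop S sd 1 k (F k) m + lam * cv m)
      (κ + (4 + 2 * C0 * r0 + 2 * Fintype.card (JJ ι) * ε) * t) := by
  have h0 : 0 ≤ t := S.nonneg hl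
  have hξ : ∀ j, S.Bd s ((k - x) j) t := hk
  have h1 : ∀ o, S.Bd s ((F k - F x) o) (C0 * t ^ 2 + Fintype.card (JJ ι) * (ε * t)) := fun o =>
    S.cong (S.add (hF.tay hs hx hξ ht o) (S.mulVec (hF.bB hs hx) hξ o))
      (by rw [add_sub_cancel, Pi.sub_apply]; ring)
  have h2 := bd_Lop S sd abs_one hξ h1 m
  rw [Lop_sub] at h2
  refine S.le (S.cong (S.add (S.add he h2) (S.mul hl (S.bd_cv (S.pos hl) m))) (by ring)) ?_
  nlinarith [mul_le_mul_of_nonneg_left ht (mul_nonneg hC h0)]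

end Kam

theorem kam (step : StepStmt) : KamStmt := by
  intro ι _ _ Γ S0 r0 C0 η' hS hS1 hr hC0 hη'
  obtain ⟨C, η0, hC, hη0, hηr, H⟩ := step ι Γ S0 r0 C0 hr hC0
  obtain ⟨K, hK, hK0⟩ : ∃ K, K = C * (20 / S0) ^ 13 ∧ 0 < K := ⟨_, rfl, by positivity⟩
  obtain ⟨L, hL, hL0⟩ : ∃ L, L = C * (20 / S0) ^ 26 * 2 ^ 27 ∧ 0 < L := ⟨_, rfl, by positivity⟩
  obtain ⟨ε, hε, e1, e2, e3⟩ : ∃ ε : ℝ, 0 < ε ∧ L * (2 * ε) ≤ 1 ∧ ε + 2 * (K * (2 * ε)) ≤ η0 ∧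
      ε + 2 * (K * (2 * ε)) ≤ η' := by
    have a1 := min_le_left (1 / (2 * L)) (min η0 η' / (1 + 4 * K))
    have a2 := min_le_right (1 / (2 * L)) (min η0 η' / (1 + 4 * K))
    rw [le_div_iff₀ (by positivity)] at a1 a2
    exact ⟨min (1 / (2 * L)) (min η0 η' / (1 + 4 * K)), by positivity, by linarith,
      by linarith [min_le_left η0 η'], by linarith [min_le_right η0 η']⟩
  refine ⟨ε, hε, fun A _ _ S sd F B hF => ?_⟩
  obtain ⟨c, hc, hc0⟩ : ∃ c, c = K * (2 * ε) ∧ 0 < c := ⟨_, rfl, by positivity⟩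
  rw [← hc] at e2 e3
  have q1 : ∀ n : ℕ, (1 : ℝ) ≤ 2 ^ n := fun n => one_le_pow₀ (by norm_num)
  have dl : ∀ {a : ℝ} (n : ℕ), 0 < a → 0 < a / 2 ^ n ∧ a / 2 ^ n ≤ a := fun n ha =>
    ⟨by positivity, div_le_self ha.le (q1 n)⟩
  obtain ⟨u, hu⟩ := Kam.seq
    (X := (JJ ι → A) × (JJ ι → A) × (JJ ι → A) × (Fin 2 → A) × A)
    (fun n x => St S sd F B (S0 / 2 + S0 / 2 / 2 ^ n) (ε + 2 * (c - c / 2 ^ n))
      (2 * ε / (2 ^ n) ^ 27) x.1 x.2.1 x.2.2.1 x.2.2.2.1 x.2.2.2.2)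
    (fun n x y => (∀ j, S.Bd (S0 / 2) (y.1 j - x.1 j) (c / 2 ^ n)) ∧
      S.Bd (S0 / 2) (y.2.2.2.2 - x.2.2.2.2) (c / 2 ^ n))
    (0, 0, ee 1, 0, 0) (by simpa using Kam.start S sd hS hr hε hF) (by
      rintro n ⟨k, k', W, σ, lam⟩ hx
      have es : S0 / 2 + S0 / 2 / 2 ^ n - 5 * (S0 / (20 * 2 ^ n)) =
          S0 / 2 + S0 / 2 / 2 ^ (n + 1) := by
        rw [pow_succ]; field_simp; ring
      have ec : c / 2 ^ (n + 1) = c / 2 ^ n / 2 := by rw [pow_succ, div_div]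
      have a1 := dl n (half_pos hS)
      have a2 := dl (n + 1) (half_pos hS)
      have a3 := dl n hc0
      have b1 := Kam.numA hC hS (by linarith : 0 < 2 * ε) (q1 n)
      rw [← hK, ← hc] at b1
      have b2 := Kam.numB hS (by linarith : 0 < 2 * ε) (q1 n) (hL ▸ e1)
      rw [← pow_succ] at b2
      obtain ⟨δ, δ', ω, τ, μ, g1, g2, -, g4⟩ := H A S sd F B ε _ (S0 / (20 * 2 ^ n)) _ _ k k' W σ
        lam hF (by linarith [a3.2]) ⟨hS, hS1, by positivity, by linarith [a2.1], by linarith [a1.2]⟩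
        (by linarith [a3.1]) (by linarith [a3.2]) hx
      rw [es] at g1 g2 g4
      refine ⟨(k + δ, k' + δ', W + ω, σ + τ, lam + μ), Kam.weak S sd g4 (by linarith) b2,
        fun j => ?_, ?_⟩
      · simpa using S.mono (g1 j) (half_pos hS) (by linarith [a2.1]) b1
      · simpa using S.mono g2 (half_pos hS) (by linarith [a2.1]) b1)
  have lev : ∀ {f : A} {a : ℝ} (n : ℕ), S.Bd (S0 / 2 + S0 / 2 / 2 ^ n) f a → S.Bd (S0 / 2) f a :=
    fun n h => S.lev h (half_pos hS) (by linarith [(dl n (half_pos hS)).1])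
  choose k hk using fun j => Kam.lim S (u := fun n => (u n).1 j) fun n => (hu n).2.1 j
  obtain ⟨lam, hl⟩ := Kam.lim S (u := fun n => (u n).2.2.2.2) fun n => (hu n).2.2
  refine ⟨k, lam, fun j => ?_, Kam.cst_lim S (fun n => (hu n).1.cl) hl, ?_, fun m => ?_⟩
  · exact S.le (S.cong (S.add (hk j 0) (lev 0 ((hu 0).1.hk j))) (by ring))
      (by simpa [add_comm] using e3)
  · exact S.le (S.cong (S.add (hl 0) (lev 0 (hu 0).1.hl)) (by ring))
      (by simpa [add_comm] using e3)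
  · refine S.sep (s := S0 / 2)
      (c := 2 * ε + (4 + 2 * C0 * r0 + 2 * Fintype.card (JJ ι) * ε) * (2 * c)) fun n => ?_
    have a3 := dl n hc0
    have a4 := dl n (by linarith : 0 < 2 * c)
    refine S.le (Kam.final S sd hC0 hF (by linarith)
      (fun j => S.le (lev n ((hu n).1.hk j)) (by linarith [a3.1])) (fun j => hk j n)
      (by linarith [a4.2]) (hl n) m (lev n ((hu n).1.err m))) ?_
    have : 2 * ε / (2 ^ n) ^ 27 ≤ 2 * ε / 2 ^ n :=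
      div_le_div_of_nonneg_left (by linarith) (by positivity) (le_self_pow₀ (q1 n) (by norm_num))
    rw [add_div, mul_div_assoc _ (2 * c)]
    linarith

end Pool.Agent.MP_1ba41f_an.S2.RK
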