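import Pool.Agent.MP_1ba41f_an.S2.RK.Bas

/-! Approximate solution of the linearised equations with the counterterm. -/

set_option autoImplicit false

namespace Pool.Agent.MP_1ba41f_an.S2.RK

theorem lin (lin0 : Lin0Stmt) : LinStmt := by
  intro ι _ _ Γ S0
  obtain ⟨C, η0, C0, e0, H⟩ := lin0 ι Γ S0
  refine ⟨9 * C + 4, min η0 (1 / (4 * C + 1)), by positivity, by positivity, ?_⟩
  intro A _ _ S sd s d η κ c B T W σ R N F hη hT hρ pR bR
  have s0 := S.pos (bR (.inl (0, 0)))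
  have c0 := S.nonneg (bR (.inl (0, 0)))
  have k0 := S.nonneg (hT (.inl (0, 0)))
  have n0 := S.nonneg (F.hσ 0)
  have d0 := N.d0
  have hC : C * η ≤ 1 / 4 := by
    have := (le_div_iff₀ (by positivity)).1 (hη.trans (min_le_right _ _))
    nlinarith
  have h1 := hη.trans (min_le_left _ _)
  obtain ⟨δR, mR, dR, bmR, bδR, eR⟩ := H A S sd s d η κ c B T W σ R N F h1 hT hρ pR bR
  obtain ⟨δV, mV, dV, bmV, bδV, eV⟩ :=
    H A S sd s d η κ 2 B T W σ cv N F h1 hT hρ (par_cv S) (S.bd_cv s0)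
  have e1 : (1 / 2 : ℝ) • S.avg ((cv : MM ι → A) (.inl (1, 0)) - (cv : MM ι → A) (.inl (0, 0)))
      = 1 := by
    have a : (cv : MM ι → A) (.inl (0, 0)) = 0 := by simp [cv]
    have b : (cv : MM ι → A) (.inl (1, 0)) = 2 := by simp [cv]
    rw [a, sub_zero, S.avg_of (S.der_cv _), b, ← one_add_one_eq_two (R := A), ← two_smul ℝ (1 : A),
      smul_smul]
    norm_num
  rw [e1] at bmV
  obtain ⟨m', dm, im, bm⟩ := S.inv dV (S.le bmV (by linarith))
  have bμ : S.Bd s (mR * m') (4 * c) :=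
    S.le (S.mul (S.cong (S.add bmR (S.half (S.avg_bd (S.sub (bR _) (bR _)))))
      (sub_add_cancel _ _)) bm) (by nlinarith)
  have dμ := S.cst_mul dR dm
  have bμ' := S.cst_bd dμ bμ (S.pos (bδR (.inl 0)))
  have p8 : 0 < d ^ 8 := by positivity
  refine ⟨δR - (mR * m') • δV, mR * m', dμ, S.le bμ (by nlinarith), fun j => ?_, fun m => ?_⟩
  · refine S.le (S.sub (bδR j) (S.mul bμ' (bδV j))) ?_
    rw [← mul_div_assoc, ← add_div]
    exact div_le_div_of_nonneg_right (by nlinarith) p8.le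
  · refine S.le (S.cong (S.sub (eR m) (S.mul bμ' (eV m))) ?_) ?_
    · rw [LL_sub, LL_cst S sd B dμ]
      split_ifs
      · linear_combination (-(mR * LL S sd B 1 T m)) * im
      · ring
    · rw [← mul_div_assoc, ← add_div]
      exact div_le_div_of_nonneg_right (by nlinarith [mul_nonneg k0 c0]) p8.le

end Pool.Agent.MP_1ba41f_an.S2.RK
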