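import Pool.Agent.MP_1ba41f_an.S2.RK.Bas

/-! Invariant circles with two reflections: the approximate solution of the linearised equations
up to a constant multiple of the tangent on the second side. -/

set_option autoImplicit false

namespace Pool.Agent.MP_1ba41f_an.S2.RK

namespace Lin0

variable {A : Type} [CommRing A] [Algebra ℝ A]

theorem half_two (x : A) : (1 / 2 : ℝ) • ((2 : ℝ) • x) = x := by
  rw [smul_smul]
  norm_num

end Lin0

theorem lin0 (dec : DecStmt) (sol : SolStmt) : Lin0Stmt := by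
  intro ι _ _ Γ S0
  obtain ⟨C1, η1, hC1, hη1, hdec⟩ := dec ι
  refine ⟨142 * Γ ^ 2 + 2 * C1 + 20 * |Γ| / (S0 / 4) ^ 4, min η1 1, by positivity,
    lt_min hη1 one_pos, ?_⟩
  intro A _ _ S sd s d η κ c B T W σ R N fr hη hP hρ par hR
  obtain ⟨p, q, ζ, pe, qo, bp, bq, bζ, cp, -, hsum⟩ :=
    hdec A Γ S sd s η c B T W σ R fr (hη.trans (min_le_left _ _)) par hR
  have η1' : η ≤ 1 := hη.trans (min_le_right _ _)
  have hΓ := S.one_le
  have hc : 0 ≤ c := S.nonneg (hR (.inl (0, 0)))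
  have hκ : 0 ≤ κ := S.nonneg (hP (.inl (0, 0)))
  have hη0 : 0 ≤ η := S.nonneg (fr.hσ 0)
  have p0 := N.p0
  have p1 := N.p1
  have d0 := N.d0
  have s0 := N.s0
  have s1 := N.s1
  have d1 : d ≤ 1 := by linarith
  have hs : 0 < s := by linarith
  have hsd : 0 < s - d := by linarith
  have hs2 : 0 < s - 2 * d := by linarith
  obtain ⟨β, hβ, bβ⟩ := (sol A Γ S s (2 * c) q (by linarith) bq).1 qo
  -- the scales
  obtain ⟨D, hD⟩ : ∃ D : ℝ, D = Γ / d ^ 4 := ⟨_, rfl⟩
  have d4 : 0 < d ^ 4 := by positivity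
  have hD1 : 1 ≤ D := by
    rw [hD, le_div_iff₀ d4]
    have : d ^ 4 ≤ 1 := pow_le_one₀ d0.le d1
    linarith
  have bβ1 : S.Bd (s - d) β (10 * D * c) :=
    S.le (bβ d d0 (by linarith)) (le_of_eq (by rw [hD]; ring))
  obtain ⟨pt, hpt⟩ : ∃ pt : Fin 2 → A, ∀ i, pt i = p i - σ i * (1 / 2 : ℝ) • (β + S.r i β) :=
    ⟨_, fun _ => rfl⟩
  have hDc : c ≤ D * c := by nlinarith
  have bpt : ∀ i, S.Bd (s - d) (pt i) (12 * D * c) := fun i => by
    rw [hpt]
    refine S.le (S.sub (S.lev (bp i) hsd (by linarith))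
      (S.mul (S.lev (fr.hσ i) hsd (by linarith)) (S.ev i bβ1))) ?_
    nlinarith [mul_nonneg (sub_nonneg.2 η1') (hc.trans hDc)]
  have ept : ∀ i, S.r i (pt i) = pt i := fun i => by
    rw [hpt, map_sub, map_mul, map_smul, map_add, S.rr, pe, fr.ev, add_comm]
  obtain ⟨α, hα0, hα1, bα⟩ := (sol A Γ S (s - d) (12 * D * c) pt (by linarith) bpt).2 ept
  have bα1 : S.Bd (s - 2 * d) α (60 * D ^ 2 * c) := by
    have := bα d d0 (by linarith)
    rw [show s - d - d = s - 2 * d by ring] at this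
    exact S.le this (le_of_eq (by rw [show 5 * Γ * (12 * D * c) / d ^ 4 =
      60 * (Γ / d ^ 4) * D * c by ring, ← hD]; ring))
  have bβ2 : S.Bd (s - 2 * d) β (10 * D ^ 2 * c) :=
    S.mono bβ1 hs2 (by linarith) (by nlinarith [mul_nonneg (sub_nonneg.2 hD1) (hc.trans hDc)])
  have hD2 : D ^ 2 = Γ ^ 2 / d ^ 8 := by rw [hD]; field_simp
  have hE : 0 ≤ 2 * C1 + 20 * |Γ| / (S0 / 4) ^ 4 := by positivity
  have d8 : 0 < d ^ 8 := by positivity
  have big : ∀ x : ℝ, 0 ≤ x → 142 * D ^ 2 * x ≤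
      (142 * Γ ^ 2 + 2 * C1 + 20 * |Γ| / (S0 / 4) ^ 4) * x / d ^ 8 := fun x hx => by
    rw [hD2, le_div_iff₀ d8, show 142 * (Γ ^ 2 / d ^ 8) * x * d ^ 8 = 142 * Γ ^ 2 * x by
      field_simp]
    nlinarith [mul_nonneg hE hx]
  have hD2c : c ≤ D ^ 2 * c := by nlinarith [mul_nonneg (sub_nonneg.2 hD1) (hc.trans hDc)]
  refine ⟨α • T + β • W + ζ, S.avg (pt 1 - pt 0), S.avg_cst _, ?_, fun j => ?_, fun m => ?_⟩
  · have bY := S.half (S.sub (hR (.inl (1, 0))) (hR (.inl (0, 0))))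
    rw [← S.avg_smul, ← S.avg_sub (S.sub (bpt 1) (bpt 0)) (S.lev bY hsd (by linarith))]
    have hl : 0 < s - S0 / 4 := by linarith
    have bβ3 := bβ (S0 / 4) (by linarith) (by linarith)
    have h := S.add (S.sub (S.sub (S.lev (cp 1) hl (by linarith)) (S.lev (cp 0) hl (by linarith)))
      (S.mul (S.lev (fr.hσ 1) hl (by linarith)) (S.ev 1 bβ3)))
      (S.mul (S.lev (fr.hσ 0) hl (by linarith)) (S.ev 0 bβ3))
    refine S.cst_bd (S.avg_cst _) (S.avg_bd (S.le (S.cong h ?_) ?_)) hs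
    · rw [hpt, hpt, smul_sub]
      ring
    · rw [abs_of_pos (by linarith)]
      have : 0 ≤ 142 * Γ ^ 2 * η * c := by positivity
      calc _ = (2 * C1 + 20 * Γ / (S0 / 4) ^ 4) * η * c := by ring
        _ ≤ _ := by nlinarith
  · have hT := S.mono (S.near fr.hT j) hs2 (by linarith) (show 1 + η ≤ 2 by linarith)
    have hW := S.mono (S.near fr.hW j) hs2 (by linarith) (show 1 + η ≤ 2 by linarith)
    refine S.le (S.add (S.add (S.mul bα1 hT) (S.mul bβ2 hW)) (S.lev (bζ j) hs2 (by linarith)))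
      (le_trans (by linarith) (big c hc))
  · have h := S.add (S.mul (S.od (side sd m) bα1) (S.lev (hP m) hs2 (by linarith)))
      (S.mul (S.ev (side sd m) bβ2) (S.lev (hρ m) hs2 (by linarith)))
    have e1 : (1 / 2 : ℝ) • (β - S.r (side sd m) β) = q (side sd m) := by
      rw [hβ, Lin0.half_two]
    have e2 : (1 / 2 : ℝ) • (α + S.r (side sd m) α) =
        pt (side sd m) - if side sd m = 1 then S.avg (pt 1 - pt 0) else 0 := by
      generalize side sd m = i
      fin_cases i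
      · simp [hα0]
      · have : α + S.r 1 α = (2 : ℝ) • (pt 1 - S.avg (pt 1 - pt 0)) := by
          rw [smul_sub, ← hα1]
          ring
        simp [this]
    refine S.le (S.cong h ?_) ?_
    · rw [LL_add, LL_add, LL_mul, LL_mul, e1, e2, ← hsum m, rho, hpt (side sd m)]
      ring
    · rw [mul_assoc _ κ c]
      refine le_trans ?_ (big _ (mul_nonneg hκ hc))
      nlinarith [mul_nonneg (mul_nonneg hκ hc) (sq_nonneg D)]

end Pool.Agent.MP_1ba41f_an.S2.RK
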