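import Pool.Agent.MP_1ba41f_an.S2.RK.Bas
import Mathlib.Analysis.Complex.LocallyUniformLimit
import Mathlib.Analysis.Normed.Group.FunctionSeries

/-! Invariant circles with two reflections: algebraic operations and limits in the model. -/

set_option autoImplicit false

open Set Filter Topology

namespace Pool.Agent.MP_1ba41f_an.S2.RK

namespace MAlg

variable {P : Type} [MetricSpace P]

theorem geo (c : ℝ) (N : ℕ) : HasSum (fun n : ℕ => c / 2 ^ (n + N)) (2 * c / 2 ^ N) := by
  convert (hasSum_geometric_two' (2 * c / 2 ^ N)) using 2 with n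
  rw [pow_add]
  field_simp

/-- the sum of a series -/
theorem ser {s A : ℝ} {b : ℕ → ℝ} {f : ℕ → P → ℝ → ℝ} (hb : HasSum b A)
    (h : ∀ n, BdM s (f n) (b n)) : BdM s (fun p θ => ∑' n, f n p θ) A := by
  refine ⟨(h 0).1, hb.nonneg fun n => (h n).2.1, continuous_tsum (fun n => (h n).2.2.1) hb.summable
    fun n q => (h n).abs_le _ _, fun p => ?_⟩
  choose G hG e using fun n => (h n).2.2.2 p
  refine ⟨fun z => ∑' n, G n z, ⟨Complex.differentiableOn_tsum_of_summable_norm hb.summable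
    (fun n => (hG n).diff) (isOpen_strip s) fun n => (hG n).bd,
    fun z hz => tsum_congr fun n => (hG n).per z hz,
    fun z hz => tsum_of_norm_bounded hb fun n => (hG n).bd z hz⟩, fun θ => ?_⟩
  simp only [e, Complex.ofReal_tsum]

end MAlg

open MAlg in
theorem mAlg : MAlgStmt := by
  intro P _
  refine ⟨?_, ?_, ?_, ?_, ?_, ?_, ?_, ?_⟩
  · intro s s' c c' f ⟨_, hc, hf, hG⟩ h0 hs hc'
    refine ⟨h0, hc.trans hc', hf, fun p => ?_⟩
    obtain ⟨G, h, e⟩ := hG p
    have hsub : strip s' ⊆ strip s := fun z hz => lt_of_lt_of_le hz hs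
    exact ⟨G, ⟨h.diff.mono hsub, fun z hz => h.per z (hsub hz),
      fun z hz => (h.bd z (hsub hz)).trans hc'⟩, e⟩
  · intro s hs
    exact ⟨hs, zero_le_one, continuous_const, fun p => ⟨fun _ => 1,
      ⟨differentiableOn_const _, fun _ _ => rfl, fun _ _ => norm_one.le⟩, fun θ => by simp⟩⟩
  · intro s c c' f g ⟨hs, hc, hf, hF⟩ ⟨_, hc', hg, hG⟩
    refine ⟨hs, add_nonneg hc hc', hf.add hg, fun p => ?_⟩
    obtain ⟨F, h, e⟩ := hF p
    obtain ⟨G, h', e'⟩ := hG p
    exact ⟨fun z => F z + G z, ⟨h.diff.add h'.diff, fun z hz => by rw [h.per z hz, h'.per z hz],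
      fun z hz => (norm_add_le _ _).trans (add_le_add (h.bd z hz) (h'.bd z hz))⟩,
      fun θ => by simp [e, e']⟩
  · intro s c c' f g ⟨hs, hc, hf, hF⟩ ⟨_, hc', hg, hG⟩
    refine ⟨hs, mul_nonneg hc hc', hf.mul hg, fun p => ?_⟩
    obtain ⟨F, h, e⟩ := hF p
    obtain ⟨G, h', e'⟩ := hG p
    exact ⟨fun z => F z * G z, ⟨h.diff.mul h'.diff, fun z hz => by rw [h.per z hz, h'.per z hz],
      fun z hz => (norm_mul_le _ _).trans
        (mul_le_mul (h.bd z hz) (h'.bd z hz) (norm_nonneg _) hc)⟩, fun θ => by simp [e, e']⟩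
  · intro s c f a ⟨hs, hc, hf, hF⟩
    refine ⟨hs, by positivity, hf.const_mul a, fun p => ?_⟩
    obtain ⟨F, h, e⟩ := hF p
    refine ⟨fun z => a * F z, ⟨h.diff.const_mul _, fun z hz => by rw [h.per z hz],
      fun z hz => ?_⟩, fun θ => by simp [e]⟩
    rw [norm_mul, Complex.norm_real, Real.norm_eq_abs]
    exact mul_le_mul_of_nonneg_left (h.bd z hz) (abs_nonneg a)
  · intro s c f a ⟨hs, hc, hf, hF⟩
    refine ⟨hs, hc, hf.comp (f := fun q : P × ℝ => (q.1, -q.2 - a)) (by fun_prop), fun p => ?_⟩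
    obtain ⟨F, h, e⟩ := hF p
    have hm : ∀ z ∈ strip s, -z - a ∈ strip s := fun z hz => by simpa [strip] using hz
    refine ⟨fun z => F (-z - a), ⟨h.diff.comp (by fun_prop) hm, fun z hz => ?_,
      fun z hz => h.bd _ (hm z hz)⟩, fun θ => ?_⟩
    · rw [← h.per (-(z + 2 * Real.pi) - a) (by simpa [strip] using hz)]
      congr 1
      ring
    · simpa [rfl'] using e (-θ - a)
  · intro s c f h
    refine ⟨fun p θ => ∑' n, f n p θ, fun N => ?_⟩
    convert ser (geo c N) fun n => h (n + N) using 1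
    ext p θ
    have : Summable fun n => f n p θ :=
      .of_norm_bounded (geo c 0).summable fun n => (h n).abs_le p θ
    rw [Pi.sub_apply, Pi.sub_apply, Finset.sum_apply, Finset.sum_apply,
      ← this.sum_add_tsum_nat_add N, add_sub_cancel_left]
  · intro s c f h
    ext p θ
    exact abs_nonpos_iff.1 (ge_of_tendsto' (geo c 0).summable.tendsto_atTop_zero
      fun n => (h n).abs_le p θ)

end Pool.Agent.MP_1ba41f_an.S2.RK
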