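import Pool.Agent.MP_1ba41f_an.S2.RK.Bas
import Mathlib.Analysis.Complex.Liouville
import Mathlib.Analysis.Complex.RealDeriv
import Mathlib.Analysis.Calculus.Deriv.Shift
import Mathlib.Analysis.Calculus.Deriv.MeanValue
import Mathlib.Analysis.Calculus.MeanValue
import Mathlib.Topology.UniformSpace.UniformApproximation

/-! The Cauchy estimate in the model, and the passage to the interface. -/

set_option autoImplicit false

open Set Filter Topology

namespace Pool.Agent.MP_1ba41f_an.S2.RK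

namespace MDer

theorem real_mem {s : ℝ} (hs : 0 < s) (θ : ℝ) : (θ : ℂ) ∈ strip s := by simpa [strip] using hs

theorem ext_deriv {s c d : ℝ} {G : ℂ → ℂ} (h : Ext s G c) (hd : 0 < d) :
    Ext (s - d) (deriv G) (c / d) := by
  have hsub : strip (s - d) ⊆ strip s := fun z (hz : |z.im| < s - d) =>
    show |z.im| < s by linarith
  refine ⟨(h.diff.deriv (isOpen_strip s)).mono hsub, fun z hz => ?_, fun z hz => ?_⟩
  · have he : (fun w => G (w + 2 * Real.pi)) =ᶠ[𝓝 z] G := by
      filter_upwards [(isOpen_strip s).mem_nhds (hsub hz)] with w hw using h.per w hw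
    rw [← he.deriv_eq, deriv_comp_add_const]
  · have hb : Metric.closedBall z d ⊆ strip s := by
      intro w hw
      have h1 : |(w - z).im| ≤ d :=
        (Complex.abs_im_le_norm _).trans (by simpa [dist_eq_norm] using hw)
      have h2 : |z.im| < s - d := hz
      have h3 : w.im = z.im + (w - z).im := by simp
      show |w.im| < s
      rw [h3]
      linarith [abs_add_le z.im (w - z).im]
    exact Complex.norm_deriv_le_of_forall_mem_sphere_norm_le hd (h.diff.diffContOnCl_ball hb)
      (fun w hw => h.bd w (hb (Metric.sphere_subset_closedBall hw)))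

theorem der_real {s c : ℝ} {G : ℂ → ℂ} {f : ℝ → ℝ} (hs : 0 < s) (h : Ext s G c)
    (e : ∀ θ : ℝ, G θ = f θ) (θ : ℝ) :
    HasDerivAt f (deriv f θ) θ ∧ deriv G θ = (deriv f θ : ℝ) := by
  have h0 : HasDerivAt G (deriv G θ) θ :=
    ((h.diff θ (real_mem hs θ)).differentiableAt
      ((isOpen_strip s).mem_nhds (real_mem hs θ))).hasDerivAt
  have h1 : HasDerivAt f (deriv G θ).re θ := by
    have := h0.real_of_complex
    simpa [e] using this
  have h2 : HasDerivAt (fun y : ℝ => (f y : ℂ)) (deriv G θ) θ := by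
    have := h0.comp_ofReal
    simpa [e] using this
  rw [h1.deriv]
  exact ⟨h1, h2.unique h1.ofReal_comp⟩

theorem lip_of {f f' : ℝ → ℝ} {M : ℝ} (h : ∀ θ, HasDerivAt f (f' θ) θ) (hb : ∀ θ, |f' θ| ≤ M)
    (a b : ℝ) : |f a - f b| ≤ M * |a - b| :=
  Convex.norm_image_sub_le_of_norm_hasDerivWithin_le (s := univ)
    (fun x _ => (h x).hasDerivWithinAt) (fun x _ => hb x) convex_univ (mem_univ b) (mem_univ a)

theorem lip_ext {s c d : ℝ} {G : ℂ → ℂ} {f : ℝ → ℝ} (hd : 0 < d) (hds : d < s) (h : Ext s G c)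
    (e : ∀ θ : ℝ, G θ = f θ) (a b : ℝ) : |f a - f b| ≤ c / d * |a - b| := by
  refine lip_of (fun θ => (der_real (hd.trans hds) h e θ).1) (fun θ => ?_) a b
  have := (ext_deriv h hd).bd θ (real_mem (by linarith) θ)
  rwa [(der_real (hd.trans hds) h e θ).2, Complex.norm_real, Real.norm_eq_abs] at this

theorem cont_deriv {P : Type} [MetricSpace P] {s c : ℝ} {f : P → ℝ → ℝ} (h : BdM s f c) :
    Continuous fun q : P × ℝ => deriv (f q.1) q.2 := by
  obtain ⟨hs, hc, hcont, hG⟩ := h
  have h3 : 0 < s / 3 := by positivity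
  have hM : 0 ≤ c / (s / 3) / (s / 3) := by positivity
  generalize hMe : c / (s / 3) / (s / 3) = M at hM
  have hlip : ∀ p a b, |deriv (f p) a - deriv (f p) b| ≤ M * |a - b| := by
    intro p a b
    obtain ⟨G, hG, e⟩ := hG p
    rw [← hMe]
    exact lip_ext h3 (by linarith) (ext_deriv hG h3) (fun θ => (der_real hs hG e θ).2) a b
  have hder : ∀ p θ, HasDerivAt (f p) (deriv (f p) θ) θ := by
    intro p θ
    obtain ⟨G, hG, e⟩ := hG p
    exact (der_real hs hG e θ).1
  refine continuous_of_uniform_approx_of_continuous (fun u hu => ?_)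
  obtain ⟨ε, hε, hu⟩ := Metric.mem_uniformity_dist.1 hu
  have ht : 0 < ε / (M + 1) := by positivity
  have hMt : M * (ε / (M + 1)) < ε := by
    rw [← mul_div_assoc, div_lt_iff₀ (by positivity)]
    nlinarith
  generalize ε / (M + 1) = t at ht hMt
  refine ⟨fun q => (f q.1 (q.2 + t) - f q.1 q.2) / (q.2 + t - q.2), ?_, fun q => hu ?_⟩
  · have h1 : Continuous fun q : P × ℝ => f q.1 (q.2 + t) :=
      hcont.comp (continuous_fst.prodMk (continuous_snd.add continuous_const))
    simp only [add_sub_cancel_left]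
    exact (h1.sub hcont).div_const t
  · obtain ⟨ξ, hξ, e⟩ := exists_hasDerivAt_eq_slope (f q.1) (deriv (f q.1))
      (show q.2 < q.2 + t by linarith)
      (fun x _ => (hder q.1 x).continuousAt.continuousWithinAt) (fun x _ => hder q.1 x)
    show dist (deriv (f q.1) q.2) ((f q.1 (q.2 + t) - f q.1 q.2) / (q.2 + t - q.2)) < ε
    rw [← e, Real.dist_eq]
    have h2 : |q.2 - ξ| ≤ t := abs_le.2 ⟨by linarith [hξ.2], by linarith [hξ.1]⟩
    exact (hlip q.1 _ _).trans_lt ((mul_le_mul_of_nonneg_left h2 hM).trans_lt hMt)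

end MDer

theorem mDer : MDerStmt := by
  intro P _ s c d f hd hds h
  refine ⟨fun p θ => deriv (f p) θ, fun p θ => ?_, by linarith, div_nonneg h.2.1 hd.le,
    MDer.cont_deriv h, fun p => ?_⟩
  · obtain ⟨G, hG, e⟩ := h.2.2.2 p
    exact (MDer.der_real h.1 hG e θ).1
  · obtain ⟨G, hG, e⟩ := h.2.2.2 p
    exact ⟨deriv G, MDer.ext_deriv hG hd, fun θ => (MDer.der_real h.1 hG e θ).2⟩

theorem smS : SmStmt := by
  intro P _ s c η f h hc hη
  refine ⟨h.2.2.1, h.per, fun p θ => (h.abs_le p θ).trans hc, fun p a b => ?_, fun p θ _ => ?_⟩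
  · obtain ⟨G, hG, e⟩ := h.2.2.2 p
    have hs := h.1
    have h1 := MDer.lip_ext (d := s / 2) (by positivity) (by linarith) hG e a b
    have h2 : c / (s / 2) = 2 * c / s := by field_simp
    rw [h2] at h1
    exact h1.trans (mul_le_mul_of_nonneg_right hη (abs_nonneg _))
  · obtain ⟨G, hG, e⟩ := h.2.2.2 p
    have h1 : AnalyticAt ℂ G θ :=
      hG.diff.analyticAt ((isOpen_strip s).mem_nhds (MDer.real_mem h.1 θ))
    have h2 : AnalyticAt ℝ (fun x : ℝ => G (Complex.ofRealCLM x)) θ :=
      AnalyticAt.comp (g := G) (f := Complex.ofRealCLM) (h1.restrictScalars (𝕜 := ℝ))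
        (Complex.ofRealCLM.analyticAt θ)
    have h3 : AnalyticAt ℝ (fun x : ℝ => Complex.reCLM (G (Complex.ofRealCLM x))) θ :=
      (Complex.reCLM.analyticAt _).comp h2
    have h4 : (fun x : ℝ => Complex.reCLM (G (Complex.ofRealCLM x))) = f p := by
      funext x
      simp [e]
    rwa [h4] at h3

end Pool.Agent.MP_1ba41f_an.S2.RK
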