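import Pool.Agent.MP_1ba41f_an.S2.RK.Bas
import Mathlib.Analysis.Calculus.Deriv.Comp
import Mathlib.Analysis.Calculus.Deriv.Add

/-! Invariant circles with two reflections: the model is a scale. -/

set_option autoImplicit false

namespace Pool.Agent.MP_1ba41f_an.S2.RK

theorem modS (a : MAlgStmt) (d : MDerStmt) (v : MAvgStmt) (c : CohStmt) : ModStmt := by
  intro w g hw
  obtain ⟨Γ, hΓ, hc⟩ := c w g hw
  refine ⟨Γ, fun P _ => ?_⟩
  obtain ⟨a1, a2, a3, a4, a5, a6, a7, a8⟩ := a P
  obtain ⟨v1, v2, v3, v4, v5, v6, v7, v8⟩ := v P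
  refine ⟨{
    Bd := BdM
    Der := DerM
    r := fun i => rfl' (![0, w] i)
    avg := avgM
    one_le := hΓ
    pos := fun h => h.1
    nonneg := fun h => h.2.1
    mono := a1
    one := a2
    add := a3
    mul := a4
    smul := a5
    refl := fun i h => a6 _ h
    rr := fun i f => ?_
    complete := a7
    sep := a8
    der := fun h0 h1 h => d P _ _ _ _ h0 h1 h
    der_add := fun h h' p θ => (h p θ).add (h' p θ)
    der_smul := fun t h p θ => (h p θ).const_smul t
    der_mul := fun h h' p θ => (h p θ).mul (h' p θ)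
    der_r := fun {f f'} i h p θ => ?_
    der_uniq := fun h h' => funext fun p => funext fun θ => (h p θ).unique (h' p θ)
    der_one := fun p θ => hasDerivAt_const θ (1 : ℝ)
    cst_bd := v1
    cst_r := fun i h => v2 _ h
    inv := v3
    avg_add := v4
    avg_smul := v5
    avg_r := fun i h => v6 _ h
    avg_bd := v7
    avg_cst := fun f p θ => hasDerivAt_const θ (avgM f p 0)
    avg_of := v8
    coh := fun {s f c} h => ?_ }, rfl, rfl, rfl, rfl⟩
  · funext p θ
    show f p (-(-θ - ![0, w] i) - ![0, w] i) = f p θ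
    congr 1
    ring
  · have h1 : HasDerivAt (fun x : ℝ => -x - ![0, w] i) (-1) θ :=
      (hasDerivAt_neg θ).sub_const _
    have h2 := (h p (-θ - ![0, w] i)).comp θ h1
    rw [mul_neg_one] at h2
    exact h2
  · obtain ⟨u, hu, hb⟩ := hc P s c f h
    refine ⟨u, funext fun p => funext fun θ => ?_, hb⟩
    show u p (-(-θ - w) - 0) - u p θ = f p θ - avgM f p θ
    rw [← hu, show -(-θ - w) - 0 = θ + w by ring]

end Pool.Agent.MP_1ba41f_an.S2.RK
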