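import Pool.Agent.MP_1ba41f_an.S2.RK.Bas

/-! Invariant circles with two reflections, row SOL: prescribed odd or even parts. -/

set_option autoImplicit false

namespace Pool.Agent.MP_1ba41f_an.S2.RK

namespace Sol

theorem le_div {Γ s c d : ℝ} (hΓ : 1 ≤ Γ) (hs : s ≤ 1) (hc : 0 ≤ c) (hd : 0 < d) (hds : d < s) :
    Γ * (4 * c) / d ^ 4 + c ≤ 5 * Γ * c / d ^ 4 := by
  have h4 : 0 < d ^ 4 := by positivity
  have h1 : d ^ 4 ≤ 1 := pow_le_one₀ hd.le (by linarith)
  have h2 : c ≤ Γ * c / d ^ 4 := by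
    rw [le_div_iff₀ h4]
    nlinarith [mul_le_mul_of_nonneg_left h1 hc, mul_le_mul_of_nonneg_right hΓ hc]
  have h3 : 5 * Γ * c / d ^ 4 = Γ * (4 * c) / d ^ 4 + Γ * c / d ^ 4 := by ring
  linarith

end Sol

theorem sol : SolStmt := by
  intro A _ _ Γ S s c q hs hq
  have hc : 0 ≤ c := S.nonneg (hq 0)
  refine ⟨fun hodd => ?_, fun hev => ?_⟩
  · have havg : ∀ i, S.avg (q i) = 0 := by
      intro i
      have h1 : S.avg (q i) = -S.avg (q i) := by
        rw [← S.avg_neg, ← hodd i, S.avg_r i (hq i)]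
      have h2 : S.avg (q i) = (1 / 2 : ℝ) • (S.avg (q i) + S.avg (q i)) := by module
      rw [h2]
      nth_rewrite 2 [h1]
      rw [add_neg_cancel, smul_zero]
    have hsum := S.add (hq 1) (S.refl 1 (hq 0))
    have hf : S.Bd s ((-2 : ℝ) • (q 1 + S.r 1 (q 0))) (4 * c) :=
      S.le (S.smul _ hsum) (by rw [abs_neg, abs_two]; linarith)
    obtain ⟨b, hb, hbd⟩ := S.coh hf
    rw [S.avg_smul, S.avg_add (hq 1) (S.refl 1 (hq 0)), S.avg_r 1 (hq 0), havg, havg, add_zero,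
      smul_zero, sub_zero] at hb
    have hb1 := congrArg (S.r 1) hb
    rw [map_sub, S.rr, map_smul, map_add, S.rr, hodd 1] at hb1
    refine ⟨(1 / 2 : ℝ) • (b + S.r 0 b) + q 0, ?_, fun d hd hds => ?_⟩
    · intro i
      fin_cases i
      · simp only [Fin.zero_eta, map_add, map_smul, S.rr, hodd 0]
        module
      · simp only [Fin.mk_one, map_add, map_smul]
        linear_combination (norm := module) (1 / 2 : ℝ) • hb1 - (1 / 2 : ℝ) • hb
    · exact S.le (S.add (S.ev 0 (hbd d hd hds)) (S.lev (hq 0) (by linarith) (by linarith)))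
        (Sol.le_div S.one_le hs hc hd hds)
  · have h2 : S.Bd s ((2 : ℝ) • q 1) (2 * c) := S.le (S.smul _ (hq 1)) (by rw [abs_two])
    have h3 := S.sub h2 (hq 0)
    have hh := S.sub h3 (S.refl 1 (hq 0))
    have hf : S.Bd s (-((2 : ℝ) • q 1 - q 0 - S.r 1 (q 0))) (4 * c) :=
      S.le (S.neg hh) (by linarith)
    obtain ⟨b, hb, hbd⟩ := S.coh hf
    have ha : S.avg (-((2 : ℝ) • q 1 - q 0 - S.r 1 (q 0))) = -((2 : ℝ) • S.avg (q 1 - q 0)) := by
      rw [S.avg_neg, S.avg_sub h3 (S.refl 1 (hq 0)), S.avg_sub h2 (hq 0), S.avg_smul,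
        S.avg_r 1 (hq 0), S.avg_sub (hq 1) (hq 0)]
      module
    rw [ha] at hb
    have hb1 := congrArg (S.r 1) hb
    simp only [map_sub, map_neg, map_smul, S.rr, hev 1, S.cst_r 1 (S.avg_cst _)] at hb1
    refine ⟨(1 / 2 : ℝ) • (b - S.r 0 b) + q 0, ?_, ?_, fun d hd hds => ?_⟩
    · simp only [map_add, map_sub, map_smul, S.rr, hev 0]
      module
    · simp only [map_add, map_sub, map_smul]
      linear_combination (norm := module) (-(1 / 2) : ℝ) • hb1 - (1 / 2 : ℝ) • hb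
    · exact S.le (S.add (S.od 0 (hbd d hd hds)) (S.lev (hq 0) (by linarith) (by linarith)))
        (Sol.le_div S.one_le hs hc hd hds)

end Pool.Agent.MP_1ba41f_an.S2.RK
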