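import Pool.Agent.MP_1ba41f_an.S2.RK.Bas

/-! Invariant circles with two reflections: one Newton step. -/

set_option autoImplicit false
set_option linter.unusedSectionVars false

open Matrix

namespace Pool.Agent.MP_1ba41f_an.S2.RK

namespace Step

theorem pw {d x y : ℝ} {i j : ℕ} (h0 : 0 < d) (h1 : d ≤ 1) (hx : 0 ≤ x) (hxy : x ≤ y)
    (h : i ≤ j) : x / d ^ i ≤ y / d ^ j :=
  div_le_div₀ (hx.trans hxy) hxy (pow_pos h0 j) (pow_le_pow_of_le_one h0.le h1 h)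

variable {A : Type} [CommRing A] [Algebra ℝ A] {Γ : ℝ} {ι : Type} [Fintype ι] [DecidableEq ι]
  (S : Sc A Γ) (sd : ι → Fin 2)

theorem LL_mat (B B' : Matrix (OO ι) (JJ ι) A) (x : JJ ι → A) (m : MM ι) :
    LL S sd B' 1 x m = LL S sd B 1 x m + Lop S sd 1 0 ((B' - B) *ᵥ x) m := by
  rw [LL, LL, ← Lop_add, add_zero, sub_mulVec, add_sub_cancel]

/-- the defect of the normal vector after a change of the matrix and of the tangent -/
theorem rho_bd {s a b κ : ℝ} {B B' : Matrix (OO ι) (JJ ι) A} {T T' W : JJ ι → A} {σ : Fin 2 → A}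
    (h : Fr S s 1 B T W σ) (hB : ∀ o j, S.Bd s (B' o j) 1)
    (hb : ∀ o j, S.Bd s (B' o j - B o j) b) (hT : ∀ j, S.Bd s (T' j) a)
    (hr : ∀ m, S.Bd s (rho S sd B T W σ m) κ) (m : MM ι) :
    S.Bd s (rho S sd B' (T + T') W σ m)
      (κ + 8 * Fintype.card (JJ ι) * b + (2 + 2 * Fintype.card (JJ ι)) * a) := by
  have z : ∀ j, S.Bd s ((0 : JJ ι → A) j) 0 := fun _ => S.zero (S.pos (hr m)) le_rfl
  have a1 := bd_Lop S sd abs_one z (S.mulVec (B := B' - B) hb (S.near h.hW)) m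
  have a2 := bd_Lop S sd abs_one z (S.mulVec (B := B' - B) hb (S.near h.hT)) m
  have a3 := bd_LL S sd abs_one hB hT m
  refine S.le (S.cong (S.sub (S.add (hr m) a1) (S.mul (h.hσ (side sd m)) (S.add a2 a3))) ?_)
    (le_of_eq (by ring))
  rw [rho, rho, LL_add, LL_mat S sd B B' W, LL_mat S sd B B' T]
  ring

end Step

open Step in
theorem step (lin : LinStmt) (frw : FrwStmt) : StepStmt := by
  intro ι _ _ Γ S0 r0 C0 hr hC0
  obtain ⟨C1, η1, c1, e1, lin⟩ := lin ι Γ S0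
  obtain ⟨C2, η2, c2, e2, frw⟩ := frw ι Γ
  obtain ⟨C3, c3, hC3⟩ : ∃ C3 : ℝ, 0 ≤ C3 ∧ C3 = 1 + 8 * Fintype.card (JJ ι) * (C0 * C1) +
      (2 + 2 * Fintype.card (JJ ι)) * C1 := ⟨_, by positivity, rfl⟩
  obtain ⟨C, hC, b1, b2, b3⟩ : ∃ C : ℝ, 0 < C ∧ C1 + 2 * (C0 * C1 ^ 2) ≤ C ∧ C2 * C3 ≤ C ∧
      C2 * C3 ^ 2 ≤ C := by
    have := mul_nonneg hC0 (sq_nonneg C1)
    have := mul_nonneg c2 c3
    have := mul_nonneg c2 (sq_nonneg C3)
    exact ⟨1 + C1 + 2 * (C0 * C1 ^ 2) + C2 * C3 + C2 * C3 ^ 2, by linarith, by linarith,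
      by linarith, by linarith⟩
  have b0 : C1 ≤ C := by linarith [mul_nonneg hC0 (sq_nonneg C1)]
  obtain ⟨η0, g0, g1, g2, g3, g4⟩ : ∃ η0 : ℝ, 0 < η0 ∧ η0 ≤ η1 ∧ η0 ≤ η2 / 2 ∧ η0 ≤ r0 / 2 ∧
      η0 ≤ 1 := ⟨min (min η1 (η2 / 2)) (min (r0 / 2) 1), by positivity,
    (min_le_left _ _).trans (min_le_left _ _), (min_le_left _ _).trans (min_le_right _ _),
    (min_le_right _ _).trans (min_le_left _ _), (min_le_right _ _).trans (min_le_right _ _)⟩
  refine ⟨C, η0, hC, g0, g3, ?_⟩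
  intro A _ _ S sd F B ε s d η κ k k' W σ lam hF hε hN hη hκ h
  have d0 := hN.d0
  have p0 := hN.p0
  have p1 := hN.p1
  have s0 := hN.s0
  have s1 := hN.s1
  have d1 : d ≤ 1 := by linarith
  have k0 : 0 ≤ κ := S.nonneg (h.err (.inl (0, 0)))
  have hk : ∀ {t}, 0 < t → t ≤ s → ∀ j, S.Bd t (k j) r0 := fun t0 t1 j =>
    S.mono (h.hk j) t0 t1 (by linarith)
  have kd : κ ≤ κ / d := by simpa using pw (i := 0) (j := 1) d0 d1 k0 le_rfl zero_le_one
  have hT : ∀ m, S.Bd (s - d) (LL S sd (B k) (-1) (ee 0 + k') m) (κ / d) := fun m => by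
    obtain ⟨f', a1, a2⟩ := S.der d0 (by linarith) (h.err m)
    have a3 := S.der_add (der_Lop S sd h.der (hF.chain s1 (hk (by linarith) le_rfl) h.der) m)
      (S.cst_mul h.cl (S.der_cv m))
    refine S.cong a2 ((S.der_uniq a1 a3).trans ?_)
    rw [LL, ← zero_add (B k *ᵥ (ee 0 + k')), Lop_add, Lop_ee0, zero_add, zero_add, add_zero]
  have hP : Par S 1 fun m => Lop S sd 1 k (F k) m + lam * cv m := fun a => by
    simp only [map_add, map_mul, S.cst_r _ h.cl, par_Lop S sd (one_mul 1) k (F k) a, par_cv S a,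
      smul_add, mul_smul_comm]
  obtain ⟨δ, μ, m1, m2, m3, m4⟩ := lin A S sd (s - d) d η (κ / d) κ (B k) (ee 0 + k') W σ _
    ⟨p0, p1, d0, by linarith, by linarith⟩ (h.fr.mono S (by linarith) (by linarith) le_rfl)
    (by linarith) hT (fun m => S.mono (h.erw m) (by linarith) (by linarith) kd) (hP.neg S)
    fun m => S.neg (S.lev (h.err m) (by linarith) (by linarith))
  choose δ' n1 n2 using fun j => S.der d0 (by linarith) (m3 j)
  obtain ⟨a, ha⟩ : ∃ a, a = C1 * κ / d ^ 9 := ⟨_, rfl⟩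
  obtain ⟨t, ht⟩ : ∃ t, t = s - 4 * d := ⟨_, rfl⟩
  have ck := mul_nonneg c1 k0
  have t0 : 0 < t := by linarith
  have t1 : t ≤ s := by linarith
  have a0 : 0 ≤ a := by rw [ha]; positivity
  have a1 : a ≤ C * κ / d ^ 13 :=
    ha ▸ pw d0 d1 ck (mul_le_mul_of_nonneg_right b0 k0) (by norm_num)
  have q1 : ∀ j, S.Bd t (δ j) a := fun j =>
    S.mono (m3 j) t0 (by linarith) (ha ▸ pw d0 d1 ck le_rfl (by norm_num))
  have q2 : ∀ j, S.Bd t (δ' j) a := fun j =>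
    S.mono (n2 j) t0 (by linarith) (by rw [ha, div_div, ← pow_succ])
  have q3 : ∀ j, S.Bd t ((k + δ) j) (η + a) := fun j => S.add (S.lev (h.hk j) t0 t1) (q1 j)
  have q4 : ∀ o j, S.Bd t (B (k + δ) o j) η := fun o j =>
    S.le (hF.bB (t1.trans s1) (fun j => S.le (q3 j) (by linarith)) o j) hε
  have q5 : Fr S t (η + a) (B (k + δ)) (ee 0 + (k' + δ')) W σ :=
    ⟨fun o j => S.le (q4 o j) (by linarith),
      fun j => S.cong (S.add (S.lev (h.fr.hT j) t0 t1) (q2 j)) (by simp only [Pi.add_apply]; ring),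
      fun j => S.mono (h.fr.hW j) t0 t1 (by linarith),
      fun i => S.mono (h.fr.hσ i) t0 t1 (by linarith), h.fr.ev⟩
  have q6 : ∀ m, S.Bd t (rho S sd (B (k + δ)) (ee 0 + (k' + δ')) W σ m) (C3 * κ / d ^ 9) :=
    fun m => by
      have := rho_bd S sd (h.fr.mono S t0 t1 (by linarith)) (fun o j => S.le (q4 o j) (by linarith))
        (hF.lip (t1.trans s1) (hk t0 t1) q1 (by linarith)) q2 (fun m => S.lev (h.erw m) t0 t1) m
      rw [add_assoc] at this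
      refine S.le this ?_
      have k9 : κ ≤ κ / d ^ 9 := by
        simpa using pw (i := 0) (j := 9) d0 d1 k0 le_rfl (by norm_num)
      rw [hC3, ha]
      refine (add_le_add (add_le_add k9 le_rfl) le_rfl).trans_eq ?_
      ring
  obtain ⟨ω, τ, w1, w2, w3, w4⟩ := frw A S sd t d (η + a) _ _ _ W σ (by linarith) d0 (by linarith)
    q5 (by linarith) q6
  have e5 : t - d = s - 5 * d := by linarith
  rw [e5] at w1 w2 w4
  have u0 : 0 < s - 5 * d := by linarith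
  have u1 : s - 5 * d ≤ t := by linarith
  have u2 : s - 5 * d ≤ s := by linarith
  have v1 : C2 * (C3 * κ / d ^ 9) / d ^ 4 ≤ C * κ / d ^ 13 := by
    rw [show C2 * (C3 * κ / d ^ 9) / d ^ 4 = C2 * C3 * κ / d ^ 13 by field_simp]
    exact pw d0 d1 (by positivity) (mul_le_mul_of_nonneg_right b2 k0) le_rfl
  have v2 : C2 * (C3 * κ / d ^ 9) ^ 2 / d ^ 4 ≤ C * κ ^ 2 / d ^ 26 := by
    rw [show C2 * (C3 * κ / d ^ 9) ^ 2 / d ^ 4 = C2 * C3 ^ 2 * κ ^ 2 / d ^ 22 by field_simp]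
    exact pw d0 d1 (by positivity) (mul_le_mul_of_nonneg_right b3 (sq_nonneg κ)) (by norm_num)
  have v3 : S.Bd (s - 5 * d) μ (C * κ / d ^ 13) := S.mono m2 u0 (by linarith) (by
    simpa using pw (i := 0) (j := 13) d0 d1 ck (mul_le_mul_of_nonneg_right b0 k0) (by norm_num))
  have v4 : C1 * (κ / d) * κ / d ^ 8 + 2 * (0 + C0 * a ^ 2) ≤ C * κ ^ 2 / d ^ 26 := by
    have x1 := pw (i := 9) (j := 26) d0 d1 (mul_nonneg c1 (sq_nonneg κ)) le_rfl (by norm_num)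
    have x2 := pw (x := 2 * (C0 * C1 ^ 2) * κ ^ 2) (i := 18) (j := 26) d0 d1 (by positivity) le_rfl
      (by norm_num)
    have x3 := pw (i := 26) d0 d1 (by positivity) (mul_le_mul_of_nonneg_right b1 (sq_nonneg κ))
      le_rfl
    rw [add_mul, add_div] at x3
    rw [ha, show C1 * (κ / d) * κ / d ^ 8 = C1 * κ ^ 2 / d ^ 9 by field_simp,
      show 2 * (0 + C0 * (C1 * κ / d ^ 9) ^ 2) = 2 * (C0 * C1 ^ 2) * κ ^ 2 / d ^ 18 by
        rw [zero_add]; field_simp]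
    linarith
  refine ⟨δ, δ', ω, τ, μ, fun j => S.mono (q1 j) u0 u1 a1, v3, m1,
    fun j => S.mono (q3 j) u0 u1 (by linarith), fun j => S.der_add (h.der j) (n1 j),
    ⟨fun o j => S.mono (q5.hB o j) u0 u1 (by linarith),
      fun j => S.mono (q5.hT j) u0 u1 (by linarith),
      fun j => S.cong (S.add (S.lev (h.fr.hW j) u0 u2) (S.le (w1 j) v1))
        (by simp only [Pi.add_apply]; ring),
      fun i => S.add (S.lev (h.fr.hσ i) u0 u2) (S.le (w2 i) v1),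
      fun i => by rw [Pi.add_apply, map_add, h.fr.ev, w3]⟩,
    S.cst_add h.cl m1, S.add (S.lev h.hl u0 u2) v3, fun m => ?_, fun m => S.le (w4 m) v2⟩
  have y := bd_Lop S sd abs_one (x := 0) (fun _ => S.zero t0 le_rfl)
    (z := F (k + δ) - F k - B k *ᵥ δ) (hF.tay (t1.trans s1) (hk t0 t1) q1 (by linarith)) m
  refine S.le (S.cong (S.add (S.lev (m4 m) u0 (by linarith)) (S.lev y u0 u1)) ?_) v4
  have e : Lop S sd 1 (k + δ) (F (k + δ)) m = Lop S sd 1 k (F k) m + LL S sd (B k) 1 δ m +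
      Lop S sd 1 0 (F (k + δ) - F k - B k *ᵥ δ) m := by
    rw [LL, ← Lop_add, ← Lop_add, add_zero]
    congr 1
    abel
  rw [e, Pi.neg_apply]
  ring

end Pool.Agent.MP_1ba41f_an.S2.RK
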