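import Pool.Agent.MP_1ba41f_an.S2.RK.Ada
import Pool.Agent.MP_1ba41f_an.S2.RK.Dec
import Pool.Agent.MP_1ba41f_an.S2.RK.Sol
import Pool.Agent.MP_1ba41f_an.S2.RK.Lin0
import Pool.Agent.MP_1ba41f_an.S2.RK.Lin
import Pool.Agent.MP_1ba41f_an.S2.RK.Frw
import Pool.Agent.MP_1ba41f_an.S2.RK.Step
import Pool.Agent.MP_1ba41f_an.S2.RK.Kam
import Pool.Agent.MP_1ba41f_an.S2.RK.MAlg
import Pool.Agent.MP_1ba41f_an.S2.RK.MDer
import Pool.Agent.MP_1ba41f_an.S2.RK.MAvg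
import Pool.Agent.MP_1ba41f_an.S2.RK.Four
import Pool.Agent.MP_1ba41f_an.S2.RK.Coh
import Pool.Agent.MP_1ba41f_an.S2.RK.Mod
import Pool.Agent.MP_1ba41f_an.S2.RK.Cau
import Pool.Agent.MP_1ba41f_an.S2.RK.Comp
import Pool.Agent.MP_1ba41f_an.S2.RK.Dio

/-! Invariant circles with two reflections: assembly. -/

set_option autoImplicit false

namespace Pool.Agent.MP_1ba41f_an.S2.RK

theorem rkAll : RKStmt :=
  rk mAlg (modS mAlg mDer mAvg (coh four)) (kam (step (lin (lin0 dec sol)) (frw dec sol)))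
    (comp cau (par cau)) smS

end Pool.Agent.MP_1ba41f_an.S2.RK
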