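import Pool.Agent.MP_1ba41f_an.S2.RK.Spec

/-! Invariant circles with two reflections: shared lemmas. -/

set_option autoImplicit false
set_option linter.unusedSectionVars false

open Matrix

namespace Pool.Agent.MP_1ba41f_an.S2.RK

variable {A : Type} [CommRing A] [Algebra ℝ A] {Γ : ℝ} {ι : Type} [Fintype ι] [DecidableEq ι]

namespace Sc
variable (S : Sc A Γ) {s s' c c' : ℝ} {f g m m' : A}

theorem le (h : S.Bd s f c) (hc : c ≤ c') : S.Bd s f c' := S.mono h (S.pos h) le_rfl hc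
theorem lev (h : S.Bd s f c) (h0 : 0 < s') (hs : s' ≤ s) : S.Bd s' f c := S.mono h h0 hs le_rfl
theorem cong (h : S.Bd s f c) (e : f = g) : S.Bd s g c := e ▸ h
theorem neg (h : S.Bd s f c) : S.Bd s (-f) c := by simpa using S.smul (-1) h
theorem sub (h : S.Bd s f c) (h' : S.Bd s g c') : S.Bd s (f - g) (c + c') := by
  simpa [sub_eq_add_neg] using S.add h (S.neg h')
theorem zero (hs : 0 < s) (hc : 0 ≤ c) : S.Bd s 0 c :=
  S.le (by simpa using S.smul 0 (S.one hs)) hc
theorem half (h : S.Bd s f c) : S.Bd s ((1 / 2 : ℝ) • f) (c / 2) :=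
  S.le (S.smul _ h) (by rw [abs_of_pos (by norm_num)]; linarith)
theorem two (hs : 0 < s) : S.Bd s 2 2 := by
  simpa [one_add_one_eq_two] using S.add (S.one hs) (S.one hs)
theorem sum {I : Type} (hs : 0 < s) {u : I → A} (t : Finset I) (h : ∀ i ∈ t, S.Bd s (u i) c) :
    S.Bd s (∑ i ∈ t, u i) (t.card * c) := by
  classical
  induction t using Finset.induction_on with
  | empty => simpa using S.zero hs le_rfl
  | insert a t ha ih =>
    rw [Finset.sum_insert ha, Finset.card_insert_of_notMem ha]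
    refine S.le (S.add (h a (Finset.mem_insert_self _ _))
      (ih fun i hi => h i (Finset.mem_insert_of_mem hi))) (le_of_eq ?_)
    push_cast
    ring
/-- the even part -/
theorem ev (i : Fin 2) (h : S.Bd s f c) : S.Bd s ((1 / 2 : ℝ) • (f + S.r i f)) c :=
  S.le (S.half (S.add h (S.refl i h))) (by linarith)
/-- the odd part -/
theorem od (i : Fin 2) (h : S.Bd s f c) : S.Bd s ((1 / 2 : ℝ) • (f - S.r i f)) c :=
  S.le (S.half (S.sub h (S.refl i h))) (by linarith)
theorem mulVec {B : Matrix (OO ι) (JJ ι) A} {x : JJ ι → A} (hB : ∀ o j, S.Bd s (B o j) c)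
    (hx : ∀ j, S.Bd s (x j) c') (o : OO ι) :
    S.Bd s ((B *ᵥ x) o) (Fintype.card (JJ ι) * (c * c')) :=
  S.sum (S.pos (hx (.inl 0))) Finset.univ fun j _ => S.mul (hB o j) (hx j)
theorem bd_ee (hs : 0 < s) (a : Fin 2) (j : JJ ι) : S.Bd s (ee a j : A) 1 := by
  unfold ee
  rw [Pi.single_apply]
  split_ifs
  exacts [S.one hs, S.zero hs zero_le_one]
theorem bd_cv (hs : 0 < s) (a : MM ι) : S.Bd s (cv a : A) 2 := by
  unfold cv
  rw [Pi.single_apply]
  split_ifs
  exacts [S.two hs, S.zero hs zero_le_two]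
/-- a vector close to a unit vector -/
theorem near {x : JJ ι → A} {a : Fin 2} (h : ∀ j, S.Bd s (x j - ee a j) c) (j : JJ ι) :
    S.Bd s (x j) (1 + c) :=
  S.cong (S.add (S.bd_ee (S.pos (h j)) a j) (h j)) (by ring)

theorem der_zero : S.Der 0 0 := by simpa using S.der_smul 0 S.der_one
theorem der_neg (h : S.Der f g) : S.Der (-f) (-g) := by simpa using S.der_smul (-1) h
theorem cst_add (h : S.Der m 0) (h' : S.Der m' 0) : S.Der (m + m') 0 := by
  simpa using S.der_add h h'
theorem cst_mul (h : S.Der m 0) (h' : S.Der m' 0) : S.Der (m * m') 0 := by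
  simpa using S.der_mul h h'
theorem cst_neg (h : S.Der m 0) : S.Der (-m) 0 := by simpa using S.der_neg h
theorem der_cv (a : MM ι) : S.Der (cv a : A) 0 := by
  unfold cv
  rw [Pi.single_apply]
  split_ifs
  exacts [by simpa [one_add_one_eq_two] using S.cst_add S.der_one S.der_one, S.der_zero]
theorem avg_neg (f : A) : S.avg (-f) = -S.avg f := by simpa using S.avg_smul (-1) f
theorem avg_sub (h : S.Bd s f c) (h' : S.Bd s g c') : S.avg (f - g) = S.avg f - S.avg g := by
  rw [sub_eq_add_neg, S.avg_add h (S.neg h'), avg_neg, sub_eq_add_neg]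

end Sc

theorem sg_zero : sg 0 = 1 := rfl
theorem sg_one : sg 1 = -1 := rfl
theorem sg_sq (a : Fin 2) : sg a * sg a = 1 := by fin_cases a <;> simp [sg]
theorem abs_sg (a : Fin 2) : |sg a| = 1 := by fin_cases a <;> simp [sg]

variable (S : Sc A Γ) (sd : ι → Fin 2) {s c c' e : ℝ}

theorem Lop_add (e : ℝ) (x x' : JJ ι → A) (z z' : OO ι → A) (m : MM ι) :
    Lop S sd e (x + x') (z + z') m = Lop S sd e x z m + Lop S sd e x' z' m := by
  cases m <;> simp only [Lop, Pi.add_apply, map_add, smul_add] <;> ring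

theorem Lop_sub (e : ℝ) (x x' : JJ ι → A) (z z' : OO ι → A) (m : MM ι) :
    Lop S sd e (x - x') (z - z') m = Lop S sd e x z m - Lop S sd e x' z' m := by
  cases m <;> simp only [Lop, Pi.sub_apply, map_add, map_sub, smul_add, smul_sub] <;> ring

theorem LL_add (B : Matrix (OO ι) (JJ ι) A) (e : ℝ) (x x' : JJ ι → A) (m : MM ι) :
    LL S sd B e (x + x') m = LL S sd B e x m + LL S sd B e x' m := by
  rw [LL, mulVec_add, Lop_add, LL, LL]

theorem LL_sub (B : Matrix (OO ι) (JJ ι) A) (e : ℝ) (x x' : JJ ι → A) (m : MM ι) :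
    LL S sd B e (x - x') m = LL S sd B e x m - LL S sd B e x' m := by
  rw [LL, mulVec_sub, Lop_sub, LL, LL]

/-- the product formula -/
theorem LL_mul (B : Matrix (OO ι) (JJ ι) A) (β : A) (x : JJ ι → A) (m : MM ι) :
    LL S sd B 1 (β • x) m = (1 / 2 : ℝ) • (β + S.r (side sd m) β) * LL S sd B 1 x m +
      (1 / 2 : ℝ) • (β - S.r (side sd m) β) * LL S sd B (-1) x m := by
  have h : algebraMap ℝ A (1 / 2) * 2 = 1 := by
    rw [← map_ofNat (algebraMap ℝ A) 2, ← map_mul]
    norm_num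
  rw [LL, mulVec_smul, LL, LL]
  cases m with
  | inl a =>
    simp only [Lop, side, Sum.elim_inl, Pi.smul_apply, smul_eq_mul, map_add, map_mul,
      Algebra.smul_def, map_neg, map_one]
    linear_combination (-(β * (x (.inl a.2) + (B *ᵥ x) (.inl a))) - algebraMap ℝ A (sg a.2) *
      S.r a.1 β * (S.r a.1 (x (.inl a.2)) + S.r a.1 ((B *ᵥ x) (.inl a)))) * h
  | inr j =>
    simp only [Lop, side, Sum.elim_inr, Pi.smul_apply, smul_eq_mul, map_mul,
      Algebra.smul_def, map_neg, map_one]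
    linear_combination (-(β * (x (.inr j) + (B *ᵥ x) (.inr (false, j)))) -
      S.r (sd j) β * S.r (sd j) ((B *ᵥ x) (.inr (true, j)))) * h

theorem LL_cst (B : Matrix (OO ι) (JJ ι) A) {μ : A} (h : S.Der μ 0) (x : JJ ι → A) (m : MM ι) :
    LL S sd B 1 (μ • x) m = μ * LL S sd B 1 x m := by
  rw [LL_mul, S.cst_r _ h, sub_self, smul_zero, zero_mul, add_zero, ← two_smul ℝ μ, smul_smul]
  norm_num

theorem par_Lop (he : e * e = 1) (x : JJ ι → A) (z : OO ι → A) : Par S e (Lop S sd e x z) := by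
  intro a
  have h : e * sg a.2 * (e * sg a.2) = 1 := by linear_combination sg a.2 * sg a.2 * he + sg_sq a.2
  simp only [Lop, map_add, map_smul, S.rr, smul_add, smul_smul, h, one_smul]
  abel

theorem par_LL (he : e * e = 1) (B : Matrix (OO ι) (JJ ι) A) (x : JJ ι → A) :
    Par S e (LL S sd B e x) := par_Lop S sd he _ _

theorem par_cv : Par S 1 (cv : MM ι → A) := by
  intro a
  rw [S.cst_r _ (S.der_cv _)]
  unfold cv
  rw [Pi.single_apply]
  split_ifs with h
  · obtain rfl : a = (1, 0) := Sum.inl_injective h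
    simp [sg]
  · simp

theorem par_rho (B : Matrix (OO ι) (JJ ι) A) (T W : JJ ι → A) {σ : Fin 2 → A}
    (h : ∀ i, S.r i (σ i) = σ i) : Par S 1 (rho S sd B T W σ) := by
  intro a
  simp only [rho, side, Sum.elim_inl, map_sub, map_mul, h, par_LL S sd (one_mul 1) B W a,
    par_LL S sd (one_mul 1) B T a, smul_sub, mul_smul_comm]

theorem Par.neg {R : MM ι → A} (h : Par S e R) : Par S e (-R) := fun a => by
  rw [Pi.neg_apply, map_neg, h a, smul_neg]

theorem bd_Lop (he : |e| = 1) {x : JJ ι → A} {z : OO ι → A} (hx : ∀ j, S.Bd s (x j) c)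
    (hz : ∀ o, S.Bd s (z o) c') (m : MM ι) : S.Bd s (Lop S sd e x z m) (2 * (c + c')) := by
  cases m with
  | inl a =>
    have h := S.add (hx (.inl a.2)) (hz (.inl a))
    exact S.le (S.add h (S.smul _ (S.refl a.1 h))) (by rw [abs_mul, he, abs_sg]; linarith)
  | inr j =>
    exact S.le (S.add (S.add (hx _) (hz _)) (S.smul _ (S.refl _ (hz _))))
      (by rw [he]; linarith [S.nonneg (hx (.inr j))])

theorem bd_LL (he : |e| = 1) {B : Matrix (OO ι) (JJ ι) A} {x : JJ ι → A}
    (hB : ∀ o j, S.Bd s (B o j) c') (hx : ∀ j, S.Bd s (x j) c) (m : MM ι) :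
    S.Bd s (LL S sd B e x m) (2 * (c + Fintype.card (JJ ι) * (c' * c))) :=
  bd_Lop S sd he hx (S.mulVec hB hx) m

theorem der_Lop {x x' : JJ ι → A} {z z' : OO ι → A} (hx : ∀ j, S.Der (x j) (x' j))
    (hz : ∀ o, S.Der (z o) (z' o)) (m : MM ι) :
    S.Der (Lop S sd 1 x z m) (Lop S sd (-1) x' z' m) := by
  cases m with
  | inl a =>
    have h := S.der_add (hx (.inl a.2)) (hz (.inl a))
    simpa only [Lop, one_mul, neg_mul, neg_smul, smul_neg] using
      S.der_add h (S.der_smul (sg a.2) (S.der_r a.1 h))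
  | inr j =>
    simpa [Lop, sub_eq_add_neg] using S.der_add (S.der_add (hx (.inr j)) (hz (.inr (false, j))))
      (S.der_r (sd j) (hz (.inr (true, j))))

theorem Lop_ee0 (m : MM ι) : Lop S sd (-1) (ee 0) 0 m = 0 := by
  rcases m with ⟨i, a⟩ | j
  · fin_cases a <;> simp [Lop, ee, sg]
  · simp [Lop, ee]

theorem Lop_ee1 (m : MM ι) : Lop S sd 1 (ee 1) 0 m = 0 := by
  rcases m with ⟨i, a⟩ | j
  · fin_cases a <;> simp [Lop, ee, sg]
  · simp [Lop, ee]

theorem Fr.mono {η η' s' : ℝ} {B : Matrix (OO ι) (JJ ι) A} {T W : JJ ι → A} {σ : Fin 2 → A}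
    (h : Fr S s η B T W σ) (h0 : 0 < s') (hs : s' ≤ s) (hη : η ≤ η') : Fr S s' η' B T W σ :=
  ⟨fun o j => S.mono (h.hB o j) h0 hs hη, fun j => S.mono (h.hT j) h0 hs hη,
    fun j => S.mono (h.hW j) h0 hs hη, fun i => S.mono (h.hσ i) h0 hs hη, h.ev⟩

/-- the bound on the real line -/
theorem BdM.abs_le {P : Type} [MetricSpace P] {f : P → ℝ → ℝ} (h : BdM s f c) (p : P) (θ : ℝ) :
    |f p θ| ≤ c := by
  obtain ⟨G, hG, e⟩ := h.2.2.2 p
  have := hG.bd θ (by simpa [strip] using h.1)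
  rwa [e, Complex.norm_real, Real.norm_eq_abs] at this

theorem BdM.per {P : Type} [MetricSpace P] {f : P → ℝ → ℝ} (h : BdM s f c) (p : P) (θ : ℝ) :
    f p (θ + 2 * Real.pi) = f p θ := by
  obtain ⟨G, hG, e⟩ := h.2.2.2 p
  have := hG.per θ (by simpa [strip] using h.1)
  rw [e, show (θ : ℂ) + 2 * Real.pi = ((θ + 2 * Real.pi : ℝ) : ℂ) by push_cast; rfl, e] at this
  exact_mod_cast this

theorem isOpen_strip (s : ℝ) : IsOpen (strip s) :=
  isOpen_lt (by fun_prop) continuous_const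

end Pool.Agent.MP_1ba41f_an.S2.RK
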