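import Pool.Agent.MP_1ba41f_an.S2.RK.Bas
import Mathlib.Analysis.Calculus.MeanValue
import Mathlib.MeasureTheory.Integral.DominatedConvergence
import Mathlib.MeasureTheory.Integral.IntervalIntegral.Periodic

/-! Invariant circles with two reflections: constants and averages in the model. -/

set_option autoImplicit false

open Set

namespace Pool.Agent.MP_1ba41f_an.S2.RK

namespace MAvg

variable {P : Type} [MetricSpace P]

omit [MetricSpace P] in
theorem cst {m : P → ℝ → ℝ} (h : DerM m 0) (p : P) (θ θ' : ℝ) : m p θ = m p θ' :=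
  is_const_of_deriv_eq_zero (fun θ => (h p θ).differentiableAt) (fun θ => (h p θ).deriv) θ θ'

/-- a continuous bounded function of the parameter alone -/
theorem bd_cst {s c : ℝ} {m : P → ℝ → ℝ} (hs : 0 < s) (hc : 0 ≤ c)
    (hm : Continuous fun q : P × ℝ => m q.1 q.2) (h0 : ∀ p θ, m p θ = m p 0)
    (hb : ∀ p, |m p 0| ≤ c) : BdM s m c := by
  refine ⟨hs, hc, hm, fun p => ⟨fun _ => (m p 0 : ℂ), ⟨differentiableOn_const _, fun _ _ => rfl,
    fun _ _ => ?_⟩, fun θ => by rw [h0 p θ]⟩⟩
  rw [Complex.norm_real, Real.norm_eq_abs]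
  exact hb p

theorem cont {s c : ℝ} {f : P → ℝ → ℝ} (h : BdM s f c) (p : P) : Continuous (f p) :=
  h.2.2.1.comp (Continuous.prodMk_right p)

end MAvg

open MAvg in
theorem mAvg : MAvgStmt := by
  intro P _
  have hπ : 0 < 2 * Real.pi := Real.two_pi_pos
  refine ⟨?_, ?_, ?_, ?_, ?_, ?_, ?_, ?_⟩
  · intro s s' c m hm hb hs
    exact bd_cst hs hb.2.1 hb.2.2.1 (fun p θ => cst hm p θ 0) fun p => hb.abs_le p 0
  · intro m a hm
    funext p θ
    exact cst hm p _ _
  · intro s m hm hb
    have h1 : ∀ p θ, 1 / 2 ≤ m p θ := fun p θ => by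
      have := (abs_le.1 (hb.abs_le p θ)).1
      simp only [Pi.sub_apply, Pi.one_apply] at this
      linarith
    have h2 : ∀ p θ, m p θ ≠ 0 := fun p θ => (lt_of_lt_of_le (by norm_num) (h1 p θ)).ne'
    have h3 : Continuous fun q : P × ℝ => m q.1 q.2 := by
      have := hb.2.2.1.add_const 1
      simpa using this
    refine ⟨fun p θ => (m p θ)⁻¹, fun p θ => ?_, ?_, ?_⟩
    · have : (fun θ => (m p θ)⁻¹) = fun _ => (m p 0)⁻¹ := funext fun θ => by rw [cst hm p θ 0]
      change HasDerivAt (fun θ => (m p θ)⁻¹) 0 θ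
      rw [this]
      exact hasDerivAt_const θ _
    · funext p θ
      exact mul_inv_cancel₀ (h2 p θ)
    · refine bd_cst hb.1 zero_le_two (h3.inv₀ fun q => h2 q.1 q.2)
        (fun p θ => by rw [cst hm p θ 0]) fun p => ?_
      have h4 : 0 < m p 0 := lt_of_lt_of_le (by norm_num) (h1 p 0)
      rw [abs_of_pos (inv_pos.2 h4), inv_le_comm₀ h4 two_pos]
      linarith [h1 p 0]
  · intro s c c' f g hf hg
    funext p θ
    simp only [avgM, Pi.add_apply]
    rw [intervalIntegral.integral_add ((cont hf p).intervalIntegrable _ _)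
      ((cont hg p).intervalIntegrable _ _), mul_add]
  · intro a f
    funext p θ
    simp only [avgM, Pi.smul_apply, smul_eq_mul]
    rw [intervalIntegral.integral_const_mul, mul_left_comm]
  · intro s c f a hf
    funext p θ
    have hp : Function.Periodic (f p) (2 * Real.pi) := hf.per p
    have h1 : ∫ θ in (0 : ℝ)..2 * Real.pi, f p (-a - θ) =
        ∫ θ in (-a - 2 * Real.pi)..(-a - 0), f p θ :=
      intervalIntegral.integral_comp_sub_left (f p) (-a)
    have h2 := hp.intervalIntegral_add_eq (-a - 2 * Real.pi) 0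
    rw [sub_add_cancel, zero_add] at h2
    rw [sub_zero, h2] at h1
    change (2 * Real.pi)⁻¹ * ∫ θ in (0 : ℝ)..2 * Real.pi, f p (-θ - a) =
      (2 * Real.pi)⁻¹ * ∫ θ in (0 : ℝ)..2 * Real.pi, f p θ
    rw [← h1]
    congr 2
    funext θ
    congr 1
    ring
  · intro s c f hf
    refine bd_cst hf.1 hf.2.1 ?_ (fun _ _ => rfl) fun p => ?_
    · have h1 : Continuous fun p => ∫ θ in (0 : ℝ)..2 * Real.pi, f p θ :=
        intervalIntegral.continuous_parametric_intervalIntegral_of_continuous' hf.2.2.1 _ _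
      exact (h1.comp continuous_fst).const_mul _
    · have h1 := intervalIntegral.norm_integral_le_of_norm_le_const (a := 0) (b := 2 * Real.pi)
        (f := f p) (C := c) fun θ _ => hf.abs_le p θ
      rw [sub_zero, abs_of_pos hπ, Real.norm_eq_abs] at h1
      rw [avgM, abs_mul, abs_of_pos (inv_pos.2 hπ), inv_mul_le_iff₀ hπ]
      exact h1.trans_eq (mul_comm _ _)
  · intro m hm
    funext p θ
    have : m p = fun _ => m p θ := funext fun θ' => cst hm p θ' θ
    rw [avgM, this, intervalIntegral.integral_const, sub_zero, smul_eq_mul,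
      inv_mul_cancel_left₀ hπ.ne']

end Pool.Agent.MP_1ba41f_an.S2.RK
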