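import Pool.Agent.MP_1ba41f_an.S2.RK.Defs
import Mathlib.Analysis.Calculus.Deriv.Mul
import Mathlib.LinearAlgebra.Matrix.ToLin
import Mathlib.MeasureTheory.Integral.IntervalIntegral.Basic

/-! Invariant circles with two reflections: scales of norms, statements of the rows. -/

set_option autoImplicit false

open Set Matrix

namespace Pool.Agent.MP_1ba41f_an.S2.RK

noncomputable section

/-- A scale of norm bounds on an algebra with two reflections. `Bd s f c`: the norm of `f` at level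
`s` is at most `c`; `Der f f'`: `f'` is the derivative of `f`. -/
structure Sc (A : Type) [CommRing A] [Algebra ℝ A] (Γ : ℝ) where
  Bd : ℝ → A → ℝ → Prop
  Der : A → A → Prop
  r : Fin 2 → A →ₐ[ℝ] A
  avg : A → A
  one_le : 1 ≤ Γ
  pos : ∀ {s f c}, Bd s f c → 0 < s
  nonneg : ∀ {s f c}, Bd s f c → 0 ≤ c
  mono : ∀ {s s' f c c'}, Bd s f c → 0 < s' → s' ≤ s → c ≤ c' → Bd s' f c'
  one : ∀ {s}, 0 < s → Bd s 1 1
  add : ∀ {s f g c c'}, Bd s f c → Bd s g c' → Bd s (f + g) (c + c')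
  mul : ∀ {s f g c c'}, Bd s f c → Bd s g c' → Bd s (f * g) (c * c')
  smul : ∀ {s f c} (a : ℝ), Bd s f c → Bd s (a • f) (|a| * c)
  refl : ∀ {s f c} (i : Fin 2), Bd s f c → Bd s (r i f) c
  rr : ∀ i f, r i (r i f) = f
  complete : ∀ {s c} {f : ℕ → A}, (∀ n, Bd s (f n) (c / 2 ^ n)) →
    ∃ g, ∀ N, Bd s (g - ∑ n ∈ Finset.range N, f n) (2 * c / 2 ^ N)
  sep : ∀ {s c f}, (∀ n : ℕ, Bd s f (c / 2 ^ n)) → f = 0
  der : ∀ {s f c d}, 0 < d → d < s → Bd s f c → ∃ f', Der f f' ∧ Bd (s - d) f' (c / d)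
  der_add : ∀ {f g f' g'}, Der f f' → Der g g' → Der (f + g) (f' + g')
  der_smul : ∀ {f f'} (a : ℝ), Der f f' → Der (a • f) (a • f')
  der_mul : ∀ {f g f' g'}, Der f f' → Der g g' → Der (f * g) (f' * g + f * g')
  der_r : ∀ {f f'} (i : Fin 2), Der f f' → Der (r i f) (-r i f')
  der_uniq : ∀ {f f' f''}, Der f f' → Der f f'' → f' = f''
  der_one : Der 1 0
  cst_bd : ∀ {s s' m c}, Der m 0 → Bd s m c → 0 < s' → Bd s' m c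
  cst_r : ∀ {m} (i : Fin 2), Der m 0 → r i m = m
  inv : ∀ {s m}, Der m 0 → Bd s (m - 1) (1 / 2) → ∃ m', Der m' 0 ∧ m * m' = 1 ∧ Bd s m' 2
  avg_add : ∀ {s f g c c'}, Bd s f c → Bd s g c' → avg (f + g) = avg f + avg g
  avg_smul : ∀ (a : ℝ) f, avg (a • f) = a • avg f
  avg_r : ∀ {s f c} (i : Fin 2), Bd s f c → avg (r i f) = avg f
  avg_bd : ∀ {s f c}, Bd s f c → Bd s (avg f) c
  avg_cst : ∀ f, Der (avg f) 0
  avg_of : ∀ {m}, Der m 0 → avg m = m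
  coh : ∀ {s f c}, Bd s f c → ∃ g, r 1 (r 0 g) - g = f - avg f ∧
    ∀ d, 0 < d → d < s → Bd (s - d) g (Γ * c / d ^ 4)

/-- unknowns: angle, action, slaves -/
abbrev JJ (ι : Type) : Type := Fin 2 ⊕ ι
/-- equations: (side, angle or action), slaves -/
abbrev MM (ι : Type) : Type := (Fin 2 × Fin 2) ⊕ ι
/-- perturbation terms -/
abbrev OO (ι : Type) : Type := (Fin 2 × Fin 2) ⊕ (Bool × ι)

def sg : Fin 2 → ℝ := ![1, -1]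

/-- the reflection used by an equation -/
def side {ι : Type} (sd : ι → Fin 2) : MM ι → Fin 2 := Sum.elim Prod.fst sd

section Abs
variable {A : Type} [CommRing A] [Algebra ℝ A] {Γ : ℝ} {ι : Type} [Fintype ι] [DecidableEq ι]
  (S : Sc A Γ) (sd : ι → Fin 2)

/-- unit vectors in the angle and in the action -/
def ee (c : Fin 2) : JJ ι → A := Pi.single (.inl c) 1

/-- direction of the counterterm -/
def cv : MM ι → A := Pi.single (.inl (1, 0)) 2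

/-- the equations (`e = 1`) and their conjugates (`e = -1`) -/
def Lop (e : ℝ) (x : JJ ι → A) (z : OO ι → A) : MM ι → A
  | .inl a => x (.inl a.2) + z (.inl a) + (e * sg a.2) • S.r a.1 (x (.inl a.2) + z (.inl a))
  | .inr j => x (.inr j) + z (.inr (false, j)) + e • S.r (sd j) (z (.inr (true, j)))

/-- the linearised equations -/
def LL (B : Matrix (OO ι) (JJ ι) A) (e : ℝ) (x : JJ ι → A) : MM ι → A := Lop S sd e x (B *ᵥ x)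

/-- parity of a right hand side -/
def Par (e : ℝ) (R : MM ι → A) : Prop :=
  ∀ a : Fin 2 × Fin 2, S.r a.1 (R (.inl a)) = (e * sg a.2) • R (.inl a)

/-- the defect of the normal vector -/
def rho (B : Matrix (OO ι) (JJ ι) A) (T W : JJ ι → A) (σ : Fin 2 → A) (m : MM ι) : A :=
  LL S sd B 1 W m - σ (side sd m) * LL S sd B 1 T m

/-- a frame: tangent `T`, normal `W`, torsion `σ` -/
structure Fr (s η : ℝ) (B : Matrix (OO ι) (JJ ι) A) (T W : JJ ι → A) (σ : Fin 2 → A) : Prop where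
  hB : ∀ o j, S.Bd s (B o j) η
  hT : ∀ j, S.Bd s (T j - ee 0 j) η
  hW : ∀ j, S.Bd s (W j - ee 1 j) η
  hσ : ∀ i, S.Bd s (σ i) η
  ev : ∀ i, S.r i (σ i) = σ i

/-- numerical side conditions -/
structure Num (S0 s d n : ℝ) : Prop where
  p0 : 0 < S0
  p1 : S0 ≤ 1
  d0 : 0 < d
  s0 : S0 / 2 ≤ s - n * d
  s1 : s ≤ S0

/-- perturbation terms `F` with derivative `B` -/
structure IsF (S0 r0 C0 ε : ℝ) (F : (JJ ι → A) → OO ι → A)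
    (B : (JJ ι → A) → Matrix (OO ι) (JJ ι) A) : Prop where
  bF : ∀ {s k}, s ≤ S0 → (∀ j, S.Bd s (k j) r0) → ∀ o, S.Bd s (F k o) ε
  bB : ∀ {s k}, s ≤ S0 → (∀ j, S.Bd s (k j) r0) → ∀ o j, S.Bd s (B k o j) ε
  tay : ∀ {s k ξ κ}, s ≤ S0 → (∀ j, S.Bd s (k j) r0) → (∀ j, S.Bd s (ξ j) κ) → κ ≤ r0 →
    ∀ o, S.Bd s (F (k + ξ) o - F k o - (B k *ᵥ ξ) o) (C0 * κ ^ 2)
  lip : ∀ {s k ξ κ}, s ≤ S0 → (∀ j, S.Bd s (k j) r0) → (∀ j, S.Bd s (ξ j) κ) → κ ≤ r0 →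
    ∀ o j, S.Bd s (B (k + ξ) o j - B k o j) (C0 * κ)
  chain : ∀ {s k k'}, s ≤ S0 → (∀ j, S.Bd s (k j) r0) → (∀ j, S.Der (k j) (k' j)) →
    ∀ o, S.Der (F k o) ((B k *ᵥ (ee 0 + k')) o)

/-- an approximate solution of size `η` with errors at most `κ` -/
structure St (F : (JJ ι → A) → OO ι → A) (B : (JJ ι → A) → Matrix (OO ι) (JJ ι) A) (s η κ : ℝ)
    (k k' W : JJ ι → A) (σ : Fin 2 → A) (lam : A) : Prop where
  hk : ∀ j, S.Bd s (k j) η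
  der : ∀ j, S.Der (k j) (k' j)
  fr : Fr S s η (B k) (ee 0 + k') W σ
  cl : S.Der lam 0
  hl : S.Bd s lam η
  err : ∀ m, S.Bd s (Lop S sd 1 k (F k) m + lam * cv m) κ
  erw : ∀ m, S.Bd s (rho S sd (B k) (ee 0 + k') W σ m) κ

end Abs

/-! ### Abstract rows -/

/-- DEC: decomposition along the frame, no loss of domain -/
def DecStmt : Prop :=
  ∀ (ι : Type) [Fintype ι] [DecidableEq ι], ∃ C η0 : ℝ, 0 ≤ C ∧ 0 < η0 ∧
    ∀ (A : Type) [CommRing A] [Algebra ℝ A] (Γ : ℝ) (S : Sc A Γ) (sd : ι → Fin 2) (s η c : ℝ)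
      (B : Matrix (OO ι) (JJ ι) A) (T W : JJ ι → A) (σ : Fin 2 → A) (R : MM ι → A),
      Fr S s η B T W σ → η ≤ η0 → Par S 1 R → (∀ m, S.Bd s (R m) c) →
      ∃ (p q : Fin 2 → A) (ζ : JJ ι → A), (∀ i, S.r i (p i) = p i) ∧ (∀ i, S.r i (q i) = -q i) ∧
        (∀ i, S.Bd s (p i) (2 * c)) ∧ (∀ i, S.Bd s (q i) (2 * c)) ∧ (∀ j, S.Bd s (ζ j) (2 * c)) ∧
        (∀ i, S.Bd s (p i - (1 / 2 : ℝ) • R (.inl (i, 0))) (C * η * c)) ∧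
        (∀ i, S.Bd s (q i - (1 / 2 : ℝ) • R (.inl (i, 1))) (C * η * c)) ∧
        ∀ m, p (side sd m) * LL S sd B 1 T m + q (side sd m) * LL S sd B (-1) W m +
          LL S sd B 1 ζ m = R m

/-- SOL: functions with prescribed odd or even parts for both reflections -/
def SolStmt : Prop :=
  ∀ (A : Type) [CommRing A] [Algebra ℝ A] (Γ : ℝ) (S : Sc A Γ) (s c : ℝ) (q : Fin 2 → A), s ≤ 1 →
    (∀ i, S.Bd s (q i) c) →
    ((∀ i, S.r i (q i) = -q i) → ∃ β, (∀ i, β - S.r i β = (2 : ℝ) • q i) ∧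
      ∀ d, 0 < d → d < s → S.Bd (s - d) β (5 * Γ * c / d ^ 4)) ∧
    ((∀ i, S.r i (q i) = q i) → ∃ α, α + S.r 0 α = (2 : ℝ) • q 0 ∧
      α + S.r 1 α + (2 : ℝ) • S.avg (q 1 - q 0) = (2 : ℝ) • q 1 ∧
      ∀ d, 0 < d → d < s → S.Bd (s - d) α (5 * Γ * c / d ^ 4))

/-- LIN0: approximate solution up to a constant multiple of the tangent on the second side -/
def Lin0Stmt : Prop :=
  ∀ (ι : Type) [Fintype ι] [DecidableEq ι] (Γ S0 : ℝ), ∃ C η0 : ℝ, 0 ≤ C ∧ 0 < η0 ∧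
    ∀ (A : Type) [CommRing A] [Algebra ℝ A] (S : Sc A Γ) (sd : ι → Fin 2) (s d η κ c : ℝ)
      (B : Matrix (OO ι) (JJ ι) A) (T W : JJ ι → A) (σ : Fin 2 → A) (R : MM ι → A),
      Num S0 s d 2 → Fr S s η B T W σ → η ≤ η0 → (∀ m, S.Bd s (LL S sd B (-1) T m) κ) →
      (∀ m, S.Bd s (rho S sd B T W σ m) κ) → Par S 1 R → (∀ m, S.Bd s (R m) c) →
      ∃ (δ : JJ ι → A) (μ : A), S.Der μ 0 ∧
        S.Bd s (μ - (1 / 2 : ℝ) • S.avg (R (.inl (1, 0)) - R (.inl (0, 0)))) (C * η * c) ∧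
        (∀ j, S.Bd (s - 2 * d) (δ j) (C * c / d ^ 8)) ∧
        ∀ m, S.Bd (s - 2 * d) (LL S sd B 1 δ m +
          (if side sd m = 1 then μ else 0) * LL S sd B 1 T m - R m) (C * κ * c / d ^ 8)

/-- LIN: approximate solution with the counterterm -/
def LinStmt : Prop :=
  ∀ (ι : Type) [Fintype ι] [DecidableEq ι] (Γ S0 : ℝ), ∃ C η0 : ℝ, 0 ≤ C ∧ 0 < η0 ∧
    ∀ (A : Type) [CommRing A] [Algebra ℝ A] (S : Sc A Γ) (sd : ι → Fin 2) (s d η κ c : ℝ)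
      (B : Matrix (OO ι) (JJ ι) A) (T W : JJ ι → A) (σ : Fin 2 → A) (R : MM ι → A),
      Num S0 s d 2 → Fr S s η B T W σ → η ≤ η0 → (∀ m, S.Bd s (LL S sd B (-1) T m) κ) →
      (∀ m, S.Bd s (rho S sd B T W σ m) κ) → Par S 1 R → (∀ m, S.Bd s (R m) c) →
      ∃ (δ : JJ ι → A) (μ : A), S.Der μ 0 ∧ S.Bd s μ (C * c) ∧
        (∀ j, S.Bd (s - 2 * d) (δ j) (C * c / d ^ 8)) ∧
        ∀ m, S.Bd (s - 2 * d) (LL S sd B 1 δ m + μ * cv m - R m) (C * κ * c / d ^ 8)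

/-- FRW: correction of the normal vector -/
def FrwStmt : Prop :=
  ∀ (ι : Type) [Fintype ι] [DecidableEq ι] (Γ : ℝ), ∃ C η0 : ℝ, 0 ≤ C ∧ 0 < η0 ∧
    ∀ (A : Type) [CommRing A] [Algebra ℝ A] (S : Sc A Γ) (sd : ι → Fin 2) (s d η κ : ℝ)
      (B : Matrix (OO ι) (JJ ι) A) (T W : JJ ι → A) (σ : Fin 2 → A),
      s ≤ 1 → 0 < d → d < s → Fr S s η B T W σ → η ≤ η0 → (∀ m, S.Bd s (rho S sd B T W σ m) κ) →
      ∃ (ω : JJ ι → A) (τ : Fin 2 → A), (∀ j, S.Bd (s - d) (ω j) (C * κ / d ^ 4)) ∧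
        (∀ i, S.Bd (s - d) (τ i) (C * κ / d ^ 4)) ∧ (∀ i, S.r i (τ i) = τ i) ∧
        ∀ m, S.Bd (s - d) (rho S sd B T (W + ω) (σ + τ) m) (C * κ ^ 2 / d ^ 4)

/-- STEP: one Newton step -/
def StepStmt : Prop :=
  ∀ (ι : Type) [Fintype ι] [DecidableEq ι] (Γ S0 r0 C0 : ℝ), 0 < r0 → 0 ≤ C0 →
    ∃ C η0 : ℝ, 0 < C ∧ 0 < η0 ∧ η0 ≤ r0 / 2 ∧
    ∀ (A : Type) [CommRing A] [Algebra ℝ A] (S : Sc A Γ) (sd : ι → Fin 2)
      (F : (JJ ι → A) → OO ι → A) (B : (JJ ι → A) → Matrix (OO ι) (JJ ι) A) (ε s d η κ : ℝ)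
      (k k' W : JJ ι → A) (σ : Fin 2 → A) (lam : A), IsF S S0 r0 C0 ε F B → ε ≤ η → Num S0 s d 5 →
      η ≤ η0 → C * κ / d ^ 13 ≤ η0 → St S sd F B s η κ k k' W σ lam →
      ∃ (δ δ' ω : JJ ι → A) (τ : Fin 2 → A) (μ : A),
        (∀ j, S.Bd (s - 5 * d) (δ j) (C * κ / d ^ 13)) ∧ S.Bd (s - 5 * d) μ (C * κ / d ^ 13) ∧
        S.Der μ 0 ∧ St S sd F B (s - 5 * d) (η + C * κ / d ^ 13) (C * κ ^ 2 / d ^ 26)
          (k + δ) (k' + δ') (W + ω) (σ + τ) (lam + μ)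

/-- KAM: the limit -/
def KamStmt : Prop :=
  ∀ (ι : Type) [Fintype ι] [DecidableEq ι] (Γ S0 r0 C0 η' : ℝ), 0 < S0 → S0 ≤ 1 → 0 < r0 →
    0 ≤ C0 → 0 < η' → ∃ ε : ℝ, 0 < ε ∧ ∀ (A : Type) [CommRing A] [Algebra ℝ A] (S : Sc A Γ)
      (sd : ι → Fin 2) (F : (JJ ι → A) → OO ι → A) (B : (JJ ι → A) → Matrix (OO ι) (JJ ι) A),
      IsF S S0 r0 C0 ε F B → ∃ (k : JJ ι → A) (lam : A), (∀ j, S.Bd (S0 / 2) (k j) η') ∧
        S.Der lam 0 ∧ S.Bd (S0 / 2) lam η' ∧ ∀ m, Lop S sd 1 k (F k) m + lam * cv m = 0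

/-! ### The model -/

def strip (s : ℝ) : Set ℂ := {z | |z.im| < s}

/-- holomorphic and periodic on a strip, bounded by `c` -/
structure Ext (s : ℝ) (G : ℂ → ℂ) (c : ℝ) : Prop where
  diff : DifferentiableOn ℂ G (strip s)
  per : ∀ z ∈ strip s, G (z + 2 * Real.pi) = G z
  bd : ∀ z ∈ strip s, ‖G z‖ ≤ c

section Mod
variable {P : Type} [MetricSpace P]

def BdM (s : ℝ) (f : P → ℝ → ℝ) (c : ℝ) : Prop :=
  0 < s ∧ 0 ≤ c ∧ (Continuous fun q : P × ℝ => f q.1 q.2) ∧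
    ∀ p, ∃ G, Ext s G c ∧ ∀ θ : ℝ, G θ = f p θ

def DerM (f f' : P → ℝ → ℝ) : Prop := ∀ p θ, HasDerivAt (f p) (f' p θ) θ

def avgM (f : P → ℝ → ℝ) : P → ℝ → ℝ :=
  fun p _ => (2 * Real.pi)⁻¹ * ∫ θ in (0 : ℝ)..2 * Real.pi, f p θ

/-- the reflection `θ ↦ -θ - a` -/
def rfl' (a : ℝ) : (P → ℝ → ℝ) →ₐ[ℝ] (P → ℝ → ℝ) where
  toFun f p θ := f p (-θ - a)
  map_one' := rfl
  map_mul' _ _ := rfl
  map_zero' := rfl
  map_add' _ _ := rfl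
  commutes' _ := rfl

variable {J : Type} [Fintype J] [DecidableEq J]

/-- the complex domain, `j0` is the angle -/
def DJ (j0 : J) (s0 : ℝ) : Set (J → ℂ) := {z | |(z j0).im| < s0 ∧ ∀ j, j ≠ j0 → ‖z j‖ < 1}

structure HolJ (j0 : J) (s0 η : ℝ) (f : P → (J → ℂ) → ℂ) : Prop where
  cont : ContinuousOn (fun q : P × (J → ℂ) => f q.1 q.2) (univ ×ˢ DJ j0 s0)
  diff : ∀ p, DifferentiableOn ℂ (f p) (DJ j0 s0)
  bd : ∀ p, ∀ z ∈ DJ j0 s0, ‖f p z‖ ≤ η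
  per : ∀ p, ∀ z ∈ DJ j0 s0, f p (z + Pi.single j0 (2 * Real.pi : ℂ)) = f p z
  real : ∀ p (x : J → ℝ), (fun j => (x j : ℂ)) ∈ DJ j0 s0 → (f p fun j => (x j : ℂ)).im = 0

/-- the real point over the angle `θ` -/
def ptJ (j0 : J) (k : J → P → ℝ → ℝ) (p : P) (θ : ℝ) : J → ℂ :=
  fun j => ((Pi.single j0 θ : J → ℝ) j + k j p θ : ℝ)

/-- composition -/
def cF (j0 : J) (f : P → (J → ℂ) → ℂ) (k : J → P → ℝ → ℝ) : P → ℝ → ℝ :=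
  fun p θ => (f p (ptJ j0 k p θ)).re

/-- composition of a derivative in one coordinate -/
def cB (j0 : J) (f : P → (J → ℂ) → ℂ) (k : J → P → ℝ → ℝ) (j : J) : P → ℝ → ℝ :=
  cF j0 (fun p z => fderiv ℂ (f p) z (Pi.single j 1)) k

end Mod

/-- MALG: algebraic operations, limits -/
def MAlgStmt : Prop :=
  ∀ (P : Type) [MetricSpace P],
    (∀ {s s' c c' : ℝ} {f : P → ℝ → ℝ}, BdM s f c → 0 < s' → s' ≤ s → c ≤ c' → BdM s' f c') ∧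
    (∀ {s : ℝ}, 0 < s → BdM s (1 : P → ℝ → ℝ) 1) ∧
    (∀ {s c c' : ℝ} {f g : P → ℝ → ℝ}, BdM s f c → BdM s g c' → BdM s (f + g) (c + c')) ∧
    (∀ {s c c' : ℝ} {f g : P → ℝ → ℝ}, BdM s f c → BdM s g c' → BdM s (f * g) (c * c')) ∧
    (∀ {s c : ℝ} {f : P → ℝ → ℝ} (a : ℝ), BdM s f c → BdM s (a • f) (|a| * c)) ∧
    (∀ {s c : ℝ} {f : P → ℝ → ℝ} (a : ℝ), BdM s f c → BdM s (rfl' a f) c) ∧
    (∀ {s c : ℝ} {f : ℕ → P → ℝ → ℝ}, (∀ n, BdM s (f n) (c / 2 ^ n)) →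
      ∃ g : P → ℝ → ℝ, ∀ N, BdM s (g - ∑ n ∈ Finset.range N, f n) (2 * c / 2 ^ N)) ∧
    ∀ {s c : ℝ} {f : P → ℝ → ℝ}, (∀ n : ℕ, BdM s f (c / 2 ^ n)) → f = 0

/-- MDER: the Cauchy estimate -/
def MDerStmt : Prop :=
  ∀ (P : Type) [MetricSpace P] (s c d : ℝ) (f : P → ℝ → ℝ), 0 < d → d < s → BdM s f c →
    ∃ f', DerM f f' ∧ BdM (s - d) f' (c / d)

/-- SM: from the norm to the interface -/
def SmStmt : Prop :=
  ∀ (P : Type) [MetricSpace P] (s c η : ℝ) (f : P → ℝ → ℝ), BdM s f c → c ≤ η → 2 * c / s ≤ η →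
    Sm η f

/-- MAVG: constants and averages -/
def MAvgStmt : Prop :=
  ∀ (P : Type) [MetricSpace P],
    (∀ {s s' c : ℝ} {m : P → ℝ → ℝ}, DerM m 0 → BdM s m c → 0 < s' → BdM s' m c) ∧
    (∀ {m : P → ℝ → ℝ} (a : ℝ), DerM m 0 → rfl' a m = m) ∧
    (∀ {s : ℝ} {m : P → ℝ → ℝ}, DerM m 0 → BdM s (m - 1) (1 / 2) →
      ∃ m', DerM m' 0 ∧ m * m' = 1 ∧ BdM s m' 2) ∧
    (∀ {s c c' : ℝ} {f g : P → ℝ → ℝ}, BdM s f c → BdM s g c' →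
      avgM (f + g) = avgM f + avgM g) ∧
    (∀ (a : ℝ) (f : P → ℝ → ℝ), avgM (a • f) = a • avgM f) ∧
    (∀ {s c : ℝ} {f : P → ℝ → ℝ} (a : ℝ), BdM s f c → avgM (rfl' a f) = avgM f) ∧
    (∀ {s c : ℝ} {f : P → ℝ → ℝ}, BdM s f c → BdM s (avgM f) c) ∧
    ∀ {m : P → ℝ → ℝ}, DerM m 0 → avgM m = m

/-- Fourier coefficients -/
def fc (G : ℝ → ℂ) (n : ℤ) : ℂ :=
  (2 * Real.pi : ℂ)⁻¹ * ∫ θ in (0 : ℝ)..2 * Real.pi, Complex.exp (-(n * θ * Complex.I)) * G θ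

/-- FOUR: decay of the coefficients and the inversion formula -/
def FourStmt : Prop :=
  ∀ (s c : ℝ) (G : ℂ → ℂ), 0 < s → Ext s G c →
    (∀ n : ℤ, ‖fc (fun θ => G θ) n‖ ≤ c * Real.exp (-(|(n : ℝ)| * s))) ∧
    ∀ θ : ℝ, HasSum (fun n : ℤ => fc (fun θ => G θ) n * Complex.exp (n * θ * Complex.I)) (G θ)

/-- COH: the cohomological equation -/
def CohStmt : Prop :=
  ∀ w g : ℝ, DioW w g → ∃ Γ : ℝ, 1 ≤ Γ ∧ ∀ (P : Type) [MetricSpace P] (s c : ℝ) (f : P → ℝ → ℝ),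
    BdM s f c → ∃ u : P → ℝ → ℝ, (∀ p θ, u p (θ + w) - u p θ = f p θ - avgM f p θ) ∧
      ∀ d, 0 < d → d < s → BdM (s - d) u (Γ * c / d ^ 4)

/-- MOD: the model is a scale -/
def ModStmt : Prop :=
  ∀ w g : ℝ, DioW w g → ∃ Γ : ℝ, ∀ (P : Type) [MetricSpace P], ∃ S : Sc (P → ℝ → ℝ) Γ,
    S.Bd = BdM ∧ S.Der = DerM ∧ S.r 0 = rfl' 0 ∧ S.r 1 = rfl' w

/-- CAU: Cauchy estimates in a normed space -/
def CauStmt : Prop :=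
  ∀ (Z : Type) [NormedAddCommGroup Z] [NormedSpace ℂ Z] (f : Z → ℂ) (z : Z) (r η : ℝ), 0 < r →
    DifferentiableOn ℂ f (Metric.ball z r) → (∀ x ∈ Metric.ball z r, ‖f x‖ ≤ η) →
    (∀ v, ‖fderiv ℂ f z v‖ ≤ 2 * η / r * ‖v‖) ∧
    ∀ ξ, ‖ξ‖ ≤ r / 2 → ‖f (z + ξ) - f z - fderiv ℂ f z ξ‖ ≤ 8 * η / r ^ 2 * ‖ξ‖ ^ 2

/-- PAR: coordinate derivatives on a smaller domain -/
def ParStmt : Prop :=
  ∀ (P J : Type) [MetricSpace P] [Fintype J] [DecidableEq J] (j0 j : J) (s0 η r : ℝ)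
    (f : P → (J → ℂ) → ℂ), 0 < r → HolJ j0 s0 η f →
    let V : Set (J → ℂ) := {z | |(z j0).im| < s0 - r ∧ ∀ i, i ≠ j0 → ‖z i‖ < 1 - r}
    let g : P → (J → ℂ) → ℂ := fun p z => fderiv ℂ (f p) z (Pi.single j 1)
    ContinuousOn (fun q : P × (J → ℂ) => g q.1 q.2) (univ ×ˢ V) ∧
      (∀ p, DifferentiableOn ℂ (g p) V) ∧ (∀ p, ∀ z ∈ V, ‖g p z‖ ≤ 2 * η / r) ∧
      (∀ p, ∀ z ∈ V, g p (z + Pi.single j0 (2 * Real.pi : ℂ)) = g p z) ∧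
      ∀ p (x : J → ℝ), (fun i => (x i : ℂ)) ∈ V → (g p fun i => (x i : ℂ)).im = 0

/-- COMP: estimates for compositions -/
def CompStmt : Prop :=
  ∀ (J : Type) [Fintype J] [DecidableEq J] (j0 : J) (s0 : ℝ), 0 < s0 →
    ∃ r0 C0 : ℝ, 0 < r0 ∧ r0 < 1 ∧ 1 ≤ C0 ∧ ∀ (P : Type) [MetricSpace P] (η : ℝ)
      (f : P → (J → ℂ) → ℂ), 0 ≤ η → HolJ j0 s0 η f → ∀ (s : ℝ) (k : J → P → ℝ → ℝ),
      s ≤ s0 / 2 → (∀ j, BdM s (k j) r0) → (∀ p θ, ptJ j0 k p θ ∈ DJ j0 s0) ∧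
      BdM s (cF j0 f k) η ∧ (∀ j, BdM s (cB j0 f k j) (C0 * η)) ∧
      (∀ (ξ : J → P → ℝ → ℝ) (κ : ℝ), (∀ j, BdM s (ξ j) κ) → κ ≤ r0 →
        BdM s (cF j0 f (k + ξ) - cF j0 f k - ∑ j, cB j0 f k j * ξ j) (C0 * η * κ ^ 2) ∧
        ∀ j, BdM s (cB j0 f (k + ξ) j - cB j0 f k j) (C0 * η * κ)) ∧
      ∀ k' : J → P → ℝ → ℝ, (∀ j, DerM (k j) (k' j)) →
        DerM (cF j0 f k) (∑ j, cB j0 f k j * ((Pi.single j0 1 : J → P → ℝ → ℝ) j + k' j))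

end

end Pool.Agent.MP_1ba41f_an.S2.RK
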